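import Mathlib

/-!
# Short vectors in the lattices `{(f, g) : f ≡ g α (mod M)}`

For `α` modulo `M` let `rho M α` be the least sup norm of a nonzero vector of the lattice
`{(f, g) ∈ ℤ² : M ∣ g α - f}`.  We show `rho ^ 2 ≤ M`, count the `α` with `rho M α ≤ T`, and, for
`M = N ^ n`, find a vector of norm at most `(N + 2) M / rho` with second coordinate prime to `N`.
-/

set_option autoImplicit false

open Finset
open scoped Classical

namespace Pool.Agent.J4H56.NA

/-- there is a nonzero lattice vector of norm at most `T` -/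
def Short (M : ℕ) (α : ℤ) (T : ℕ) : Prop :=
  ∃ f g : ℤ, (f ≠ 0 ∨ g ≠ 0) ∧ |f| ≤ T ∧ |g| ≤ T ∧ (M : ℤ) ∣ g * α - f

/-- the least norm of a nonzero lattice vector -/
noncomputable def rho (M : ℕ) (α : ℤ) : ℕ := sInf {T | Short M α T}

lemma short_self {M : ℕ} (hM : 0 < M) (α : ℤ) : Short M α M := by
  refine ⟨M, 0, Or.inl (by exact_mod_cast hM.ne'), by simp, by simp, ?_⟩
  simp

lemma short_rho {M : ℕ} (hM : 0 < M) (α : ℤ) : Short M α (rho M α) :=
  Nat.sInf_mem (s := {T | Short M α T}) ⟨M, short_self hM α⟩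

lemma rho_le {M : ℕ} {α : ℤ} {T : ℕ} (h : Short M α T) : rho M α ≤ T := Nat.sInf_le h

lemma Short.mono {M : ℕ} {α : ℤ} {T T' : ℕ} (h : Short M α T) (hT : T ≤ T') : Short M α T' := by
  obtain ⟨f, g, h0, h1, h2, h3⟩ := h
  have : (T : ℤ) ≤ T' := by exact_mod_cast hT
  exact ⟨f, g, h0, h1.trans this, h2.trans this, h3⟩

lemma rho_le_iff {M : ℕ} (hM : 0 < M) {α : ℤ} {T : ℕ} : rho M α ≤ T ↔ Short M α T :=
  ⟨fun h => (short_rho hM α).mono h, rho_le⟩

lemma rho_pos {M : ℕ} (hM : 0 < M) (α : ℤ) : 0 < rho M α := by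
  obtain ⟨f, g, h0, h1, h2, -⟩ := short_rho hM α
  by_contra h
  have h' : rho M α = 0 := by omega
  rw [h'] at h1 h2
  simp only [Nat.cast_zero, abs_nonpos_iff] at h1 h2
  rcases h0 with h0 | h0
  · exact h0 h1
  · exact h0 h2

lemma rho_sq_le {M : ℕ} (hM : 0 < M) (α : ℤ) : rho M α ^ 2 ≤ M := by
  have hs : 0 < Nat.sqrt M := Nat.sqrt_pos.mpr hM
  have hM' : (0 : ℝ) < M := by exact_mod_cast hM
  obtain ⟨j, k, hk0, hkn, hjk⟩ := Real.exists_int_int_abs_mul_sub_le ((α : ℝ) / M) hs
  have h1 : Short M α (Nat.sqrt M) := by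
    refine ⟨k * α - j * M, k, Or.inr hk0.ne', ?_, ?_, ?_⟩
    · have e : |((k * α - j * M : ℤ) : ℝ)| ≤ M / ((Nat.sqrt M : ℝ) + 1) := by
        have : ((k * α - j * M : ℤ) : ℝ) = M * (k * (α / M) - j) := by
          push_cast
          field_simp
        rw [this, abs_mul, abs_of_pos hM']
        calc (M : ℝ) * |(k : ℝ) * (α / M) - j| ≤ M * (1 / ((Nat.sqrt M : ℝ) + 1)) := by gcongr
          _ = M / ((Nat.sqrt M : ℝ) + 1) := by ring
      have h2 : (M : ℝ) < ((Nat.sqrt M : ℝ) + 1) ^ 2 := by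
        have := Nat.lt_succ_sqrt' M
        exact_mod_cast this
      have h3 : (M : ℝ) / ((Nat.sqrt M : ℝ) + 1) < (Nat.sqrt M : ℝ) + 1 := by
        rw [div_lt_iff₀ (by positivity)]
        linarith
      have h4 : |((k * α - j * M : ℤ) : ℝ)| < (Nat.sqrt M : ℝ) + 1 := lt_of_le_of_lt e h3
      have h5 : |(k * α - j * M : ℤ)| < (Nat.sqrt M : ℤ) + 1 := by
        rw [← Int.cast_abs] at h4
        exact_mod_cast h4
      omega
    · rw [abs_of_pos hk0]; exact hkn
    · refine ⟨j, by ring⟩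
  calc rho M α ^ 2 ≤ (Nat.sqrt M) ^ 2 := Nat.pow_le_pow_left (rho_le h1) 2
    _ ≤ M := Nat.sqrt_le' M

/-- for each `g` few `α` have `g α` close to a multiple of `M` -/
lemma card_g {M T g : ℕ} (hg : 1 ≤ g) (hgT : g ≤ T) (hT : T < M) :
    ((range M).filter fun α : ℕ => ∃ f : ℤ, |f| ≤ T ∧ (M : ℤ) ∣ g * (α : ℤ) - f).card ≤ 6 * T := by
  -- cover by `g + 1` intervals
  have hg0 : (0 : ℤ) < g := by exact_mod_cast hg
  have hsub : ((range M).filter fun α : ℕ => ∃ f : ℤ, |f| ≤ T ∧ (M : ℤ) ∣ g * (α : ℤ) - f) ⊆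
      (range (g + 1)).biUnion fun j =>
        (range M).filter fun α : ℕ => |(g : ℤ) * α - M * j| ≤ T := by
    intro α hα
    simp only [mem_filter, mem_range] at hα
    obtain ⟨hαM, f, hf, j, hj⟩ := hα
    have hf' := abs_le.mp hf
    have hM0 : (0 : ℤ) < M := by
      have : 0 < M := by omega
      exact_mod_cast this
    have hTM : (T : ℤ) < M := by exact_mod_cast hT
    have hαM' : (α : ℤ) < M := by exact_mod_cast hαM
    have hα0 : (0 : ℤ) ≤ α := by positivity
    have hj0 : 0 ≤ j := by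
      by_contra h
      have : j ≤ -1 := by omega
      have h1 : (M : ℤ) * j ≤ M * (-1) := by nlinarith
      have h2 : (0 : ℤ) ≤ g * α := by positivity
      linarith [hf'.2]
    have hjg : j < g + 1 := by
      by_contra h
      have : (g : ℤ) + 1 ≤ j := by omega
      have h1 : (M : ℤ) * (g + 1) ≤ M * j := by nlinarith
      have h2 : (g : ℤ) * α ≤ g * M := by nlinarith
      nlinarith [hf'.1]
    simp only [mem_biUnion, mem_range, mem_filter]
    refine ⟨j.toNat, by omega, hαM, ?_⟩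
    have : ((j.toNat : ℕ) : ℤ) = j := Int.toNat_of_nonneg hj0
    rw [this]
    have : (g : ℤ) * α - M * j = f := by linarith
    rw [this]; exact hf
  have hone : ∀ j : ℕ, g * ((range M).filter fun α : ℕ => |(g : ℤ) * α - M * j| ≤ T).card ≤
      2 * T + g := by
    intro j
    set x : ℤ := (M * j + T) / g with hx
    set y : ℤ := (T - M * j) / g with hy
    have hsub2 : (((range M).filter fun α : ℕ => |(g : ℤ) * α - M * j| ≤ T).image
        (fun α : ℕ => (α : ℤ))) ⊆ Finset.Icc (-y) x := by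
      intro z hz
      simp only [mem_image, mem_filter, mem_range] at hz
      obtain ⟨α, ⟨-, hα⟩, rfl⟩ := hz
      rw [abs_le] at hα
      rw [Finset.mem_Icc]
      constructor
      · have : -(α : ℤ) ≤ y := by
          rw [hy]
          apply Int.le_ediv_of_mul_le hg0
          linarith [hα.1]
        linarith
      · rw [hx]
        apply Int.le_ediv_of_mul_le hg0
        linarith [hα.2]
    have hc := Finset.card_le_card hsub2
    rw [Finset.card_image_of_injective _ Nat.cast_injective, Int.card_Icc] at hc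
    have hx' : (g : ℤ) * x ≤ M * j + T := by rw [hx]; exact Int.mul_ediv_self_le hg0.ne'
    have hy' : (g : ℤ) * y ≤ T - M * j := by rw [hy]; exact Int.mul_ediv_self_le hg0.ne'
    rcases le_or_gt 0 (x + 1 - -y) with h | h
    · have h1 : (((x + 1 - -y).toNat : ℕ) : ℤ) = x + 1 - -y := Int.toNat_of_nonneg h
      have h2 : (g : ℤ) * ((x + 1 - -y).toNat : ℕ) ≤ 2 * T + g := by rw [h1]; nlinarith
      have h3 : (g : ℤ) * (((range M).filter fun α : ℕ => |(g : ℤ) * α - M * j| ≤ T).card : ℕ) ≤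
          g * ((x + 1 - -y).toNat : ℕ) := by
        apply mul_le_mul_of_nonneg_left _ hg0.le
        exact_mod_cast hc
      have := h3.trans h2
      exact_mod_cast this
    · have h1 : (x + 1 - -y).toNat = 0 := Int.toNat_eq_zero.mpr h.le
      rw [h1] at hc
      have : ((range M).filter fun α : ℕ => |(g : ℤ) * α - M * j| ≤ T).card = 0 := by omega
      rw [this]; simp
  have h1 : g * ((range M).filter fun α : ℕ => ∃ f : ℤ, |f| ≤ T ∧ (M : ℤ) ∣ g * (α : ℤ) - f).card ≤
      (g + 1) * (2 * T + g) := by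
    calc g * ((range M).filter fun α : ℕ => ∃ f : ℤ, |f| ≤ T ∧ (M : ℤ) ∣ g * (α : ℤ) - f).card
        ≤ g * ∑ j ∈ range (g + 1),
          ((range M).filter fun α : ℕ => |(g : ℤ) * α - M * j| ≤ T).card :=
          Nat.mul_le_mul_left _ ((Finset.card_le_card hsub).trans Finset.card_biUnion_le)
      _ = ∑ j ∈ range (g + 1), g * ((range M).filter fun α : ℕ => |(g : ℤ) * α - M * j| ≤ T).card :=
          by rw [Finset.mul_sum]
      _ ≤ ∑ _j ∈ range (g + 1), (2 * T + g) := Finset.sum_le_sum fun j _ => hone j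
      _ = (g + 1) * (2 * T + g) := by simp
  have h2 : (g + 1) * (2 * T + g) ≤ g * (6 * T) := by nlinarith
  exact le_of_mul_le_mul_left (h1.trans h2) (by omega : 0 < g)

lemma card_short {M T : ℕ} (hT : T < M) :
    ((range M).filter fun α : ℕ => rho M (α : ℤ) ≤ T).card ≤ 6 * T ^ 2 := by
  have hM : 0 < M := by omega
  have hsub : ((range M).filter fun α : ℕ => rho M (α : ℤ) ≤ T) ⊆
      (Finset.Icc 1 T).biUnion fun g =>
        (range M).filter fun α : ℕ => ∃ f : ℤ, |f| ≤ T ∧ (M : ℤ) ∣ g * (α : ℤ) - f := by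
    intro α hα
    simp only [mem_filter, mem_range] at hα
    obtain ⟨hαM, hr⟩ := hα
    rw [rho_le_iff hM] at hr
    obtain ⟨f, g, h0, h1, h2, h3⟩ := hr
    have hg : g ≠ 0 := by
      rintro rfl
      simp only [ne_eq, not_true_eq_false, or_false] at h0
      simp only [zero_mul, zero_sub, dvd_neg] at h3
      have := Int.le_of_dvd (abs_pos.mpr h0) ((dvd_abs _ _).mpr h3)
      have hT' : (T : ℤ) < M := by exact_mod_cast hT
      linarith
    simp only [mem_biUnion, Finset.mem_Icc, mem_filter, mem_range]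
    have h2' := abs_le.mp h2
    refine ⟨g.natAbs, ⟨by omega, by omega⟩, hαM, ?_⟩
    rcases le_or_gt 0 g with hg0 | hg0
    · refine ⟨f, h1, ?_⟩
      have : ((g.natAbs : ℕ) : ℤ) = g := by omega
      rw [this]; exact h3
    · refine ⟨-f, by rw [abs_neg]; exact h1, ?_⟩
      have : ((g.natAbs : ℕ) : ℤ) = -g := by omega
      rw [this]
      have e : -g * (α : ℤ) - -f = -(g * α - f) := by ring
      rw [e]; exact (dvd_neg).mpr h3
  calc ((range M).filter fun α : ℕ => rho M (α : ℤ) ≤ T).card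
      ≤ ∑ g ∈ Finset.Icc 1 T,
        ((range M).filter fun α : ℕ => ∃ f : ℤ, |f| ≤ T ∧ (M : ℤ) ∣ g * (α : ℤ) - f).card :=
        (Finset.card_le_card hsub).trans Finset.card_biUnion_le
    _ ≤ ∑ _g ∈ Finset.Icc 1 T, 6 * T := by
        refine Finset.sum_le_sum fun g hg => ?_
        rw [Finset.mem_Icc] at hg
        exact card_g hg.1 hg.2 hT
    _ = 6 * T ^ 2 := by simp; ring

end Pool.Agent.J4H56.NA
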