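import Mathlib
import Pool.Agent.J4H56.NA.Lat

/-!
# A short lattice vector which is a reduced fraction with denominator prime to `N`
-/

set_option autoImplicit false

open Finset
open scoped Classical

namespace Pool.Agent.J4H56.NA

/-- a second basis vector -/
lemma exists_second {M : ℕ} (hM : 0 < M) (α : ℤ) :
    ∃ f1 g1 f2 g2 : ℤ, |f1| ≤ rho M α ∧ |g1| ≤ rho M α ∧ (M : ℤ) ∣ g1 * α - f1 ∧
      (M : ℤ) ∣ g2 * α - f2 ∧ IsCoprime g1 g2 ∧
      (rho M α : ℤ) * |f2| ≤ 2 * M ∧ (rho M α : ℤ) * |g2| ≤ 2 * M := by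
  obtain ⟨f1, g1, h0, h1, h2, j1, hj1⟩ := short_rho hM α
  have hrpos := rho_pos hM α
  have hrsq : (rho M α : ℤ) ^ 2 ≤ M := by exact_mod_cast rho_sq_le hM α
  set r := rho M α with hr
  have hr0 : (0 : ℤ) < r := by exact_mod_cast hrpos
  have hM0 : (0 : ℤ) < M := by exact_mod_cast hM
  -- the norm is attained
  have hmax : |f1| = r ∨ |g1| = r := by
    by_contra h
    push Not at h
    have h3 : |f1| ≤ ((r - 1 : ℕ) : ℤ) := by
      have := lt_of_le_of_ne h1 h.1
      omega
    have h4 : |g1| ≤ ((r - 1 : ℕ) : ℤ) := by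
      have := lt_of_le_of_ne h2 h.2
      omega
    have h5 : Short M α (r - 1) := ⟨f1, g1, h0, h3, h4, j1, hj1⟩
    have := rho_le h5
    omega
  -- coprimality of the coordinates
  have hcop : IsCoprime j1 g1 := by
    rw [Int.isCoprime_iff_gcd_eq_one]
    by_contra hd
    set d := Int.gcd j1 g1 with hdd
    have hd0 : d ≠ 0 := by
      intro h
      rw [hdd, Int.gcd_eq_zero_iff] at h
      obtain ⟨ha, hb⟩ := h
      rw [ha, hb] at hj1
      simp only [zero_mul, zero_sub, mul_zero, neg_eq_zero] at hj1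
      rcases h0 with h0 | h0
      · exact h0 hj1
      · exact h0 hb
    have hd2 : 2 ≤ d := by omega
    obtain ⟨j', hj'⟩ : (d : ℤ) ∣ j1 := Int.gcd_dvd_left ..
    obtain ⟨g', hg'⟩ : (d : ℤ) ∣ g1 := Int.gcd_dvd_right ..
    have hd0' : (0 : ℤ) < d := by
      have : 0 < d := by omega
      exact_mod_cast this
    have hd2' : (2 : ℤ) ≤ d := by exact_mod_cast hd2
    have hf1 : f1 = d * (g' * α - M * j') := by
      have : f1 = g1 * α - M * j1 := by linarith
      rw [this, hj', hg']; ring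
    have hs : Short M α (r / 2) := by
      refine ⟨g' * α - M * j', g', ?_, ?_, ?_, j', by ring⟩
      · rcases h0 with h0 | h0
        · left
          intro h
          rw [h, mul_zero] at hf1
          exact h0 hf1
        · right
          rintro rfl
          rw [mul_zero] at hg'
          exact h0 hg'
      · have h3 : |f1| = d * |g' * α - M * j'| := by
          rw [hf1, abs_mul, abs_of_pos hd0']
        have h4 : 2 * |g' * α - M * j'| ≤ r := by
          have := abs_nonneg (g' * α - M * j')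
          nlinarith
        omega
      · have h3 : |g1| = d * |g'| := by rw [hg', abs_mul, abs_of_pos hd0']
        have h4 : 2 * |g'| ≤ r := by
          have := abs_nonneg g'
          nlinarith
        omega
    have := rho_le hs
    omega
  obtain ⟨a, b, hab⟩ := hcop
  -- `a * j1 + b * g1 = 1`
  have key : ∀ t : ℤ, ∃ f2 g2 : ℤ, f2 = (a * α + M * b) - t * f1 ∧ g2 = a - t * g1 ∧
      (M : ℤ) ∣ g2 * α - f2 ∧ IsCoprime g1 g2 ∧ f1 * g2 - f2 * g1 = -M := by
    intro t
    refine ⟨_, _, rfl, rfl, ⟨-b - t * j1, ?_⟩, ⟨b + t * j1, j1, ?_⟩, ?_⟩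
    · have : f1 = g1 * α - M * j1 := by linarith
      rw [this]; ring
    · linear_combination hab
    · have h3 : f1 = g1 * α - M * j1 := by linarith
      rw [h3]
      linear_combination (-(M : ℤ)) * hab
  rcases hmax with hm | hm
  · have hf1 : f1 ≠ 0 := by
      intro h; rw [h, abs_zero] at hm; omega
    obtain ⟨f2, g2, e1, e2, h3, h4, h5⟩ := key ((a * α + M * b) / f1)
    have h6 : f2 = (a * α + M * b) % f1 := by
      rw [e1, Int.emod_def]; ring
    have h7 : 0 ≤ f2 := by rw [h6]; exact Int.emod_nonneg _ hf1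
    have h8 : f2 < |f1| := by rw [h6]; exact Int.emod_lt_abs _ hf1
    have h9 : |f2| ≤ r := by rw [abs_of_nonneg h7]; omega
    refine ⟨f1, g1, f2, g2, h1, h2, ⟨j1, hj1⟩, h3, h4, ?_, ?_⟩
    · have := abs_nonneg f2
      nlinarith
    · have h10 : |f1| * |g2| ≤ M + |f2| * |g1| := by
        rw [← abs_mul, ← abs_mul]
        have : f1 * g2 = f2 * g1 - M := by linarith
        rw [this]
        calc |f2 * g1 - M| ≤ |f2 * g1| + |(M : ℤ)| := abs_sub _ _
          _ = M + |f2 * g1| := by rw [abs_of_pos hM0]; ring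
      have h11 : |f2| * |g1| ≤ r * r := mul_le_mul h9 h2 (abs_nonneg _) hr0.le
      rw [hm] at h10
      nlinarith
  · have hg1 : g1 ≠ 0 := by
      intro h; rw [h, abs_zero] at hm; omega
    obtain ⟨f2, g2, e1, e2, h3, h4, h5⟩ := key (a / g1)
    have h6 : g2 = a % g1 := by
      rw [e2, Int.emod_def]; ring
    have h7 : 0 ≤ g2 := by rw [h6]; exact Int.emod_nonneg _ hg1
    have h8 : g2 < |g1| := by rw [h6]; exact Int.emod_lt_abs _ hg1
    have h9 : |g2| ≤ r := by rw [abs_of_nonneg h7]; omega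
    refine ⟨f1, g1, f2, g2, h1, h2, ⟨j1, hj1⟩, h3, h4, ?_, ?_⟩
    · have h10 : |g1| * |f2| ≤ M + |f1| * |g2| := by
        rw [← abs_mul, ← abs_mul]
        have : g1 * f2 = f1 * g2 + M := by linarith
        rw [this]
        calc |f1 * g2 + M| ≤ |f1 * g2| + |(M : ℤ)| := abs_add_le _ _
          _ = M + |f1 * g2| := by rw [abs_of_pos hM0]; ring
      have h11 : |f1| * |g2| ≤ r * r := mul_le_mul h1 h9 (abs_nonneg _) hr0.le
      rw [hm] at h10
      nlinarith
    · have := abs_nonneg g2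
      nlinarith

/-- `K` is a bound for the least `k ≥ 0` with `g2 + k g1` prime to `N`, for all coprime `g1`, `g2` -/
def Jac (N K : ℕ) : Prop := ∀ g1 g2 : ℤ, IsCoprime g1 g2 → ∃ k : ℕ, k ≤ K ∧ IsCoprime (g2 + k * g1) N

lemma exists_good {N n K : ℕ} (hN : 2 ≤ N) (hK : Jac N K) (α : ℤ) :
    ∃ f g : ℤ, 0 < g ∧ IsCoprime f g ∧ IsCoprime g N ∧ ((N : ℤ) ^ n) ∣ g * α - f ∧
      (rho (N ^ n) α : ℤ) * |f| ≤ (K + 2) * N ^ n ∧ (rho (N ^ n) α : ℤ) * |g| ≤ (K + 2) * N ^ n := by
  have hM : 0 < N ^ n := by positivity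
  obtain ⟨f1, g1, f2, g2, h1, h2, h3, h4, h5, h6, h7⟩ := exists_second hM α
  obtain ⟨k, hkK, hk⟩ := hK g1 g2 h5
  have hrsq : (rho (N ^ n) α : ℤ) ^ 2 ≤ ((N ^ n : ℕ) : ℤ) := by exact_mod_cast rho_sq_le hM α
  have hr0 : (0 : ℤ) < rho (N ^ n) α := by exact_mod_cast rho_pos hM α
  set r : ℤ := (rho (N ^ n) α : ℤ) with hr
  have hMM : ((N ^ n : ℕ) : ℤ) = (N : ℤ) ^ n := by push_cast; rfl
  rw [hMM] at h3 h4 h6 h7 hrsq
  set f := f2 + k * f1 with hf
  set g := g2 + k * g1 with hg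
  have hkK' : (k : ℤ) ≤ K := by exact_mod_cast hkK
  have hk0 : (0 : ℤ) ≤ k := by positivity
  have hfb : r * |f| ≤ (K + 2) * N ^ n := by
    have e1 : |f| ≤ |f2| + k * |f1| := by
      calc |f| ≤ |f2| + |k * f1| := abs_add_le _ _
        _ = |f2| + k * |f1| := by rw [abs_mul, abs_of_nonneg hk0]
    have e2 : (k : ℤ) * (r * |f1|) ≤ K * r ^ 2 := by
      have : r * |f1| ≤ r ^ 2 := by nlinarith
      have h0 : 0 ≤ r * |f1| := by positivity
      nlinarith
    have e3 : (K : ℤ) * r ^ 2 ≤ K * N ^ n := by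
      apply mul_le_mul_of_nonneg_left hrsq; positivity
    nlinarith
  have hgb : r * |g| ≤ (K + 2) * N ^ n := by
    have e1 : |g| ≤ |g2| + k * |g1| := by
      calc |g| ≤ |g2| + |k * g1| := abs_add_le _ _
        _ = |g2| + k * |g1| := by rw [abs_mul, abs_of_nonneg hk0]
    have e2 : (k : ℤ) * (r * |g1|) ≤ K * r ^ 2 := by
      have : r * |g1| ≤ r ^ 2 := by nlinarith
      have h0 : 0 ≤ r * |g1| := by positivity
      nlinarith
    have e3 : (K : ℤ) * r ^ 2 ≤ K * N ^ n := by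
      apply mul_le_mul_of_nonneg_left hrsq; positivity
    nlinarith
  have hlat : (N : ℤ) ^ n ∣ g * α - f := by
    have : g * α - f = (g2 * α - f2) + k * (g1 * α - f1) := by rw [hf, hg]; ring
    rw [this]
    exact dvd_add h4 (Dvd.dvd.mul_left h3 _)
  have hg0 : g ≠ 0 := by
    intro h
    rw [h] at hk
    have := isCoprime_zero_left.mp hk
    rw [Int.isUnit_iff] at this
    omega
  -- divide by the gcd and fix the sign
  set d := Int.gcd f g with hd
  have hd0 : 0 < d := Int.gcd_pos_of_ne_zero_right _ hg0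
  obtain ⟨f', hf'⟩ : (d : ℤ) ∣ f := Int.gcd_dvd_left ..
  obtain ⟨g', hg'⟩ : (d : ℤ) ∣ g := Int.gcd_dvd_right ..
  have hd0' : (1 : ℤ) ≤ d := by exact_mod_cast hd0
  have hcop : IsCoprime f' g' := by
    rw [Int.isCoprime_iff_gcd_eq_one]
    have h8 : Int.gcd f g = d * Int.gcd f' g' := by
      conv_lhs => rw [hf', hg']
      rw [Int.gcd_mul_left]
      simp
    rw [← hd] at h8
    have : d * 1 = d * Int.gcd f' g' := by omega
    exact (Nat.eq_of_mul_eq_mul_left hd0 this).symm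
  have hcd : IsCoprime (d : ℤ) N := by
    rw [hg'] at hk
    exact hk.of_mul_left_left
  have hcg : IsCoprime g' (N : ℤ) := by
    rw [hg'] at hk
    exact hk.of_mul_left_right
  have hlat' : (N : ℤ) ^ n ∣ g' * α - f' := by
    have h8 : g * α - f = d * (g' * α - f') := by
      rw [hf', hg']; ring
    rw [h8] at hlat
    exact (hcd.symm.pow_left (m := n)).dvd_of_dvd_mul_left hlat
  have hfb' : r * |f'| ≤ (K + 2) * N ^ n := by
    refine le_trans ?_ hfb
    rw [hf', abs_mul, abs_of_pos (by linarith : (0 : ℤ) < d)]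
    have := abs_nonneg f'
    have h9 : |f'| ≤ d * |f'| := by nlinarith
    exact mul_le_mul_of_nonneg_left h9 hr0.le
  have hgb' : r * |g'| ≤ (K + 2) * N ^ n := by
    refine le_trans ?_ hgb
    rw [hg', abs_mul, abs_of_pos (by linarith : (0 : ℤ) < d)]
    have := abs_nonneg g'
    have h9 : |g'| ≤ d * |g'| := by nlinarith
    exact mul_le_mul_of_nonneg_left h9 hr0.le
  have hg'0 : g' ≠ 0 := by
    rintro h
    rw [h, mul_zero] at hg'
    exact hg0 hg'
  rcases lt_or_gt_of_ne hg'0 with hneg | hpos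
  · refine ⟨-f', -g', by linarith, ?_, hcg.neg_left, ?_, ?_, ?_⟩
    · exact hcop.neg_neg
    · have : -g' * α - -f' = -(g' * α - f') := by ring
      rw [this]; exact (dvd_neg).mpr hlat'
    · rw [abs_neg]; exact hfb'
    · rw [abs_neg]; exact hgb'
  · exact ⟨f', g', hpos, hcop, hcg, hlat', hfb', hgb'⟩

/-- for every `N` one can take `K = N` -/
lemma jac_self {N : ℕ} (hN : 2 ≤ N) : Jac N N := by
  intro g1 g2 h
  set P : Finset ℕ := N.primeFactors.filter fun p : ℕ => ¬ (p : ℤ) ∣ g2 with hP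
  refine ⟨∏ p ∈ P, p, ?_, ?_⟩
  · calc ∏ p ∈ P, p ≤ ∏ p ∈ N.primeFactors, p := by
          apply Finset.prod_le_prod_of_subset_of_one_le' (Finset.filter_subset _ _)
          intro p hp _
          exact (Nat.prime_of_mem_primeFactors hp).one_lt.le
      _ ≤ N := Nat.le_of_dvd (by omega) (Nat.prod_primeFactors_dvd N)
  · rw [Int.isCoprime_iff_gcd_eq_one]
    by_contra hne
    obtain ⟨p, hp, hpd⟩ := Nat.exists_prime_and_dvd hne
    have hp1 : (p : ℤ) ∣ g2 + ((∏ p ∈ P, p : ℕ) : ℤ) * g1 :=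
      (Int.natCast_dvd_natCast.mpr hpd).trans (Int.gcd_dvd_left ..)
    have hp2 : (p : ℤ) ∣ N := (Int.natCast_dvd_natCast.mpr hpd).trans (Int.gcd_dvd_right ..)
    have hpN : p ∣ N := by exact_mod_cast hp2
    have hpp : Prime (p : ℤ) := Nat.prime_iff_prime_int.mp hp
    have hmem : p ∈ N.primeFactors := Nat.mem_primeFactors.mpr ⟨hp, hpN, by omega⟩
    by_cases hg2 : (p : ℤ) ∣ g2
    · have h3 : (p : ℤ) ∣ ((∏ p ∈ P, p : ℕ) : ℤ) * g1 := (dvd_add_right hg2).mp hp1
      rcases hpp.dvd_or_dvd h3 with h4 | h4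
      · have h5 : p ∣ ∏ p ∈ P, p := by exact_mod_cast h4
        rw [Prime.dvd_finsetProd_iff (Nat.prime_iff.mp hp)] at h5
        obtain ⟨q, hq, hpq⟩ := h5
        rw [hP, mem_filter] at hq
        have : p = q := (Nat.prime_dvd_prime_iff_eq hp (Nat.prime_of_mem_primeFactors hq.1)).mp hpq
        rw [← this] at hq
        exact hq.2 hg2
      · have := h.isUnit_of_dvd' h4 hg2
        exact hpp.not_isUnit this
    · have h5 : (p : ℤ) ∣ ((∏ p ∈ P, p : ℕ) : ℤ) := by
        have : p ∣ ∏ p ∈ P, p := Finset.dvd_prod_of_mem _ (by rw [hP, mem_filter]; exact ⟨hmem, hg2⟩)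
        exact_mod_cast this
      have h6 : (p : ℤ) ∣ g2 := (dvd_add_left (Dvd.dvd.mul_right h5 g1)).mp hp1
      exact hg2 h6

/-- for a prime power one can take `K = 1` -/
lemma jac_one {N : ℕ} (hN : IsPrimePow N) : Jac N 1 := by
  obtain ⟨p, k, hp, hk, rfl⟩ := hN
  have hp' : Nat.Prime p := Nat.prime_iff.mpr hp
  have hpp : Prime (p : ℤ) := Nat.prime_iff_prime_int.mp hp'
  intro g1 g2 h
  by_cases h2 : (p : ℤ) ∣ g2
  · refine ⟨1, le_rfl, ?_⟩
    push_cast
    apply IsCoprime.pow_right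
    rw [isCoprime_comm, Prime.coprime_iff_not_dvd hpp]
    intro h3
    have h4 : (p : ℤ) ∣ g1 := by
      have := (dvd_add_right h2).mp h3
      simpa using this
    exact hpp.not_isUnit (h.isUnit_of_dvd' h4 h2)
  · refine ⟨0, by omega, ?_⟩
    push_cast
    apply IsCoprime.pow_right
    rw [isCoprime_comm, Prime.coprime_iff_not_dvd hpp]
    simpa using h2

end Pool.Agent.J4H56.NA
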