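import Mathlib
import Pool.Agent.J4H56.NA.Good

/-!
# The average of `log (rho M α)`
-/

set_option autoImplicit false

open Finset
open scoped Classical

namespace Pool.Agent.J4H56.NA

lemma inv_le_layers (r S : ℕ) (hr : 1 ≤ r) :
    (1 : ℝ) / r ≤ 1 / (S + 1 : ℝ) + ∑ T ∈ Finset.Icc 1 S,
      (if r ≤ T then (1 : ℝ) / (T * (T + 1)) else 0) := by
  induction S with
  | zero =>
    have : (1 : ℝ) ≤ r := by exact_mod_cast hr
    simp only [Nat.cast_zero, zero_add, div_one]
    have h1 : Finset.Icc 1 0 = (∅ : Finset ℕ) := by simp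
    rw [h1, Finset.sum_empty, add_zero]
    rw [div_le_one (by linarith)]
    exact this
  | succ S ih =>
    rw [Finset.sum_Icc_succ_top (by omega)]
    by_cases h : r ≤ S + 1
    · rw [if_pos h]
      have e : (1 : ℝ) / (((S + 1 : ℕ) : ℝ) * (((S + 1 : ℕ) : ℝ) + 1)) =
          1 / ((S : ℝ) + 1) - 1 / (((S + 1 : ℕ) : ℝ) + 1) := by
        push_cast
        have h1 : (S : ℝ) + 1 ≠ 0 := by positivity
        have h2 : (S : ℝ) + 1 + 1 ≠ 0 := by positivity
        field_simp
        ring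
      rw [e]
      linarith
    · rw [if_neg h, add_zero]
      have h1 : ∀ T ∈ Finset.Icc 1 S, (if r ≤ T then (1 : ℝ) / (T * (T + 1)) else 0) = 0 := by
        intro T hT
        rw [Finset.mem_Icc] at hT
        rw [if_neg (by omega)]
      rw [Finset.sum_eq_zero h1, add_zero]
      have h2 : ((S + 1 : ℕ) : ℝ) + 1 ≤ r := by
        have : S + 1 + 1 ≤ r := by omega
        exact_mod_cast this
      exact one_div_le_one_div_of_le (by positivity) h2

lemma sum_inv_rho {M : ℕ} (hM : 0 < M) :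
    ∑ α ∈ range M, (1 : ℝ) / rho M (α : ℤ) ≤ 5 * √M := by
  set S := Nat.sqrt (M / 6) with hS
  have h1 : 6 * S ^ 2 ≤ M := by
    have := Nat.sqrt_le' (M / 6)
    have h2 : 6 * (M / 6) ≤ M := Nat.mul_div_le M 6
    rw [← hS] at this
    omega
  have h2 : M < 6 * (S + 1) ^ 2 := by
    have := Nat.lt_succ_sqrt' (M / 6)
    rw [← hS, Nat.succ_eq_add_one] at this
    omega
  have hcard : ∀ T ∈ Finset.Icc 1 S,
      ((range M).filter fun α : ℕ => rho M (α : ℤ) ≤ T).card ≤ 6 * T ^ 2 := by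
    intro T hT
    rw [Finset.mem_Icc] at hT
    apply card_short
    have h3 : T ≤ T ^ 2 := by nlinarith
    have h4 : T ^ 2 ≤ S ^ 2 := Nat.pow_le_pow_left hT.2 2
    have h5 : 1 ≤ T ^ 2 := by nlinarith
    omega
  have hM0 : (0 : ℝ) < M := by exact_mod_cast hM
  have hstep : ∑ α ∈ range M, (1 : ℝ) / rho M (α : ℤ) ≤ M / (S + 1 : ℝ) + 6 * S := by
    calc ∑ α ∈ range M, (1 : ℝ) / rho M (α : ℤ)
        ≤ ∑ α ∈ range M, (1 / (S + 1 : ℝ) + ∑ T ∈ Finset.Icc 1 S,
          (if rho M (α : ℤ) ≤ T then (1 : ℝ) / (T * (T + 1)) else 0)) :=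
          Finset.sum_le_sum fun α _ => inv_le_layers _ _ (rho_pos hM _)
      _ = M / (S + 1 : ℝ) + ∑ T ∈ Finset.Icc 1 S, ∑ α ∈ range M,
          (if rho M (α : ℤ) ≤ T then (1 : ℝ) / (T * (T + 1)) else 0) := by
          rw [Finset.sum_add_distrib, Finset.sum_comm]
          congr 1
          rw [Finset.sum_const, card_range, nsmul_eq_mul]
          ring
      _ ≤ M / (S + 1 : ℝ) + ∑ T ∈ Finset.Icc 1 S, (6 : ℝ) := by
          gcongr with T hT
          rw [← Finset.sum_filter, Finset.sum_const, nsmul_eq_mul]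
          have h3 := hcard T hT
          rw [Finset.mem_Icc] at hT
          have hT1 : (1 : ℝ) ≤ T := by exact_mod_cast hT.1
          have h4 : (((range M).filter fun α : ℕ => rho M (α : ℤ) ≤ T).card : ℝ) ≤ 6 * T ^ 2 := by
            exact_mod_cast h3
          rw [mul_one_div, div_le_iff₀ (by positivity)]
          nlinarith
      _ = M / (S + 1 : ℝ) + 6 * S := by
          rw [Finset.sum_const, Nat.card_Icc, nsmul_eq_mul]
          simp
          ring
  refine hstep.trans ?_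
  have hsq : √(M : ℝ) ^ 2 = M := Real.sq_sqrt hM0.le
  have hs0 : 0 < √(M : ℝ) := Real.sqrt_pos.mpr hM0
  set q := √(M : ℝ) with hq
  have h1' : 6 * (S : ℝ) ^ 2 ≤ q ^ 2 := by rw [hsq]; exact_mod_cast h1
  have h2' : q ^ 2 < 6 * ((S : ℝ) + 1) ^ 2 := by rw [hsq]; exact_mod_cast h2
  have hS0 : (0 : ℝ) ≤ S := by positivity
  -- `6 S ≤ (5/2) q` and `q^2/(S+1) ≤ (5/2) q`
  have h3 : 6 * (S : ℝ) ≤ 5 / 2 * q := by
    nlinarith
  have h4 : (M : ℝ) / (S + 1 : ℝ) ≤ 5 / 2 * q := by
    rw [div_le_iff₀ (by positivity), ← hsq]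
    have : q ≤ 5 / 2 * ((S : ℝ) + 1) := by nlinarith
    nlinarith
  linarith

lemma sum_log_rho {M : ℕ} (hM : 0 < M) :
    (M : ℝ) * (Real.log M / 2 - Real.log 5) ≤ ∑ α ∈ range M, Real.log (rho M (α : ℤ)) := by
  have hM0 : (0 : ℝ) < M := by exact_mod_cast hM
  set q := √(M : ℝ) with hq
  have hs0 : 0 < q := Real.sqrt_pos.mpr hM0
  have hsq : q ^ 2 = M := Real.sq_sqrt hM0.le
  have hlq : Real.log q = Real.log M / 2 := Real.log_sqrt hM0.le
  have hpt : ∀ α ∈ range M, Real.log q - Real.log (rho M (α : ℤ)) ≤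
      q / 5 * (1 / rho M (α : ℤ)) - 1 + Real.log 5 := by
    intro α _
    have hr : (0 : ℝ) < rho M (α : ℤ) := by exact_mod_cast rho_pos hM _
    have h1 := Real.log_le_sub_one_of_pos (show 0 < q / 5 * (1 / rho M (α : ℤ)) by positivity)
    have h2 : Real.log (q / 5 * (1 / rho M (α : ℤ))) =
        Real.log q - Real.log 5 - Real.log (rho M (α : ℤ)) := by
      rw [Real.log_mul (by positivity) (by positivity), Real.log_div (by positivity) (by norm_num),
        one_div, Real.log_inv]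
      ring
    linarith
  have hsum := Finset.sum_le_sum hpt
  rw [Finset.sum_sub_distrib, Finset.sum_add_distrib, Finset.sum_sub_distrib, ← Finset.mul_sum]
    at hsum
  simp only [Finset.sum_const, card_range, nsmul_eq_mul, mul_one] at hsum
  have h5 := sum_inv_rho hM
  have h6 : q / 5 * ∑ α ∈ range M, (1 : ℝ) / rho M (α : ℤ) ≤ q / 5 * (5 * q) := by
    apply mul_le_mul_of_nonneg_left h5 (by positivity)
  rw [hlq] at hsum
  nlinarith

end Pool.Agent.J4H56.NA
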