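import Mathlib
import Pool.Agent.J4H56.NA.Good

/-!
# Integers avoiding one residue class for each of `ω` primes

Among `2 ^ ω` consecutive integers there is one which avoids a given residue class modulo each of
`ω` primes (a special case of the theorem of Crittenden and Vanden Eynden; the product of the
`1 - exp (2πi (x - r_p) / p)` is a sum of `2 ^ ω` exponential sequences).
-/

set_option autoImplicit false

open Finset Polynomial
open scoped Classical

namespace Pool.Agent.J4H56.NA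

lemma exp_seq_zero {I : Type} [Fintype I] (c z : I → ℂ)
    (h : ∀ x < Fintype.card I, ∑ i, c i * z i ^ x = 0) : ∀ x : ℕ, ∑ i, c i * z i ^ x = 0 := by
  set D := Fintype.card I with hD
  set Q : ℂ[X] := ∏ i : I, (X - C (z i)) with hQ
  have hmonic : Q.Monic := monic_prod_of_monic _ _ fun i _ => monic_X_sub_C _
  have hdeg : Q.natDegree = D := by
    rw [hQ, natDegree_prod_of_monic _ _ fun i _ => monic_X_sub_C _]
    simp [hD]
  have hroot : ∀ i, Q.eval (z i) = 0 := by
    intro i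
    rw [hQ, eval_prod]
    exact Finset.prod_eq_zero (mem_univ i) (by simp)
  have hrec : ∀ x, ∑ j ∈ range (D + 1), Q.coeff j * ∑ i, c i * z i ^ (x + j) = 0 := by
    intro x
    calc ∑ j ∈ range (D + 1), Q.coeff j * ∑ i, c i * z i ^ (x + j)
        = ∑ i, c i * z i ^ x * ∑ j ∈ range (D + 1), Q.coeff j * z i ^ j := by
          simp_rw [Finset.mul_sum]
          rw [Finset.sum_comm]
          refine Finset.sum_congr rfl fun i _ => Finset.sum_congr rfl fun j _ => ?_
          rw [pow_add]; ring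
      _ = ∑ i, c i * z i ^ x * Q.eval (z i) := by
          refine Finset.sum_congr rfl fun i _ => ?_
          rw [eval_eq_sum_range, hdeg]
      _ = 0 := by simp [hroot]
  intro x
  induction x using Nat.strong_induction_on with
  | _ x ih =>
    rcases lt_or_ge x D with hx | hx
    · exact h x hx
    · have h1 := hrec (x - D)
      rw [Finset.sum_range_succ] at h1
      have h2 : ∑ j ∈ range D, Q.coeff j * ∑ i, c i * z i ^ (x - D + j) = 0 := by
        refine Finset.sum_eq_zero fun j hj => ?_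
        rw [mem_range] at hj
        rw [ih (x - D + j) (by omega), mul_zero]
      rw [h2, zero_add] at h1
      have h3 : Q.coeff D = 1 := by
        rw [← hdeg]; exact hmonic.coeff_natDegree
      rw [h3, one_mul] at h1
      have : x - D + D = x := by omega
      rwa [this] at h1

/-- the exponential sequence with period `p` -/
noncomputable def ee (p : ℕ) (y : ℤ) : ℂ := Complex.exp (2 * Real.pi * Complex.I * (y / p : ℂ))

lemma ee_eq_one {p : ℕ} (hp : 0 < p) (y : ℤ) : ee p y = 1 ↔ (p : ℤ) ∣ y := by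
  unfold ee
  rw [Complex.exp_eq_one_iff]
  have hp' : (p : ℂ) ≠ 0 := by
    have : p ≠ 0 := by omega
    exact_mod_cast this
  have hpi : (2 * Real.pi * Complex.I : ℂ) ≠ 0 := by
    simp [Real.pi_ne_zero]
  constructor
  · rintro ⟨n, hn⟩
    have h1 : (y : ℂ) / p = n := by
      have : (2 * Real.pi * Complex.I : ℂ) * (y / p) = (2 * Real.pi * Complex.I : ℂ) * n := by
        rw [hn]; ring
      exact mul_left_cancel₀ hpi this
    rw [div_eq_iff hp'] at h1
    refine ⟨n, ?_⟩
    have h2 : (y : ℂ) = ((n * p : ℤ) : ℂ) := by push_cast; exact h1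
    have h3 : y = n * p := by exact_mod_cast h2
    rw [h3]; ring
  · rintro ⟨n, rfl⟩
    refine ⟨n, ?_⟩
    push_cast
    field_simp

lemma ee_sub {p : ℕ} (x : ℕ) (r : ℤ) : ee p (x - r) = ee p (-r) * ee p 1 ^ x := by
  unfold ee
  rw [← Complex.exp_nat_mul, ← Complex.exp_add]
  congr 1
  push_cast
  ring

lemma exists_avoid (P : Finset ℕ) (hP : ∀ p ∈ P, p.Prime) (r : ℕ → ℤ) :
    ∃ k : ℕ, k < 2 ^ P.card ∧ ∀ p ∈ P, ¬ (p : ℤ) ∣ k - r p := by
  by_contra hcon
  push Not at hcon
  -- the product vanishes at `2 ^ ω` consecutive integers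
  have hF : ∀ x : ℕ, x < 2 ^ P.card → ∏ p ∈ P, (1 - ee p ((x : ℤ) - r p)) = 0 := by
    intro x hx
    obtain ⟨p, hp, hd⟩ := hcon x hx
    refine Finset.prod_eq_zero hp ?_
    rw [(ee_eq_one (hP p hp).pos _).mpr hd, sub_self]
  have hexp : ∀ x : ℕ, ∏ p ∈ P, (1 - ee p ((x : ℤ) - r p)) =
      ∑ S : {S // S ∈ P.powerset}, ((∏ p ∈ (S : Finset ℕ), (-ee p (-r p))) *
        (∏ p ∈ (S : Finset ℕ), ee p 1) ^ x) := by
    intro x
    have h1 : ∏ p ∈ P, (1 - ee p ((x : ℤ) - r p)) = ∏ p ∈ P, (-ee p ((x : ℤ) - r p) + 1) := by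
      refine Finset.prod_congr rfl fun p _ => by ring
    rw [h1, Finset.prod_add]
    rw [← Finset.sum_coe_sort P.powerset]
    refine Finset.sum_congr rfl fun S _ => ?_
    rw [Finset.prod_const_one, mul_one, ← Finset.prod_pow, ← Finset.prod_mul_distrib]
    refine Finset.prod_congr rfl fun p _ => ?_
    rw [ee_sub]; ring
  have hcard : Fintype.card {S // S ∈ P.powerset} = 2 ^ P.card := by
    rw [Fintype.card_coe, card_powerset]
  have hall := exp_seq_zero
    (fun S : {S // S ∈ P.powerset} => ∏ p ∈ (S : Finset ℕ), (-ee p (-r p)))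
    (fun S => ∏ p ∈ (S : Finset ℕ), ee p 1) (by
      intro x hx
      rw [hcard] at hx
      rw [← hexp x]; exact hF x hx)
  -- an integer avoiding all classes
  obtain ⟨x, hx⟩ : ∃ x : ℕ, ∀ p ∈ P, ¬ (p : ℤ) ∣ x - r p := by
    have hcop : Set.Pairwise (P : Set ℕ) (Function.onFun Nat.Coprime (fun p : ℕ => p)) := by
      intro p hp q hq hpq
      exact (Nat.coprime_primes (hP p hp) (hP q hq)).mpr hpq
    have hne : ∀ p ∈ P, (fun p : ℕ => p) p ≠ 0 := fun p hp => (hP p hp).ne_zero
    obtain ⟨x, hx⟩ := Nat.chineseRemainderOfFinset (fun p => ((r p + 1) % p).toNat) (fun p => p) P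
      hne hcop
    refine ⟨x, fun p hp hd => ?_⟩
    have h1 := hx p hp
    have hp0 : (0 : ℤ) < p := by exact_mod_cast (hP p hp).pos
    have h2 : ((((r p + 1) % p).toNat : ℕ) : ℤ) = (r p + 1) % p :=
      Int.toNat_of_nonneg (Int.emod_nonneg _ hp0.ne')
    have h3 : (p : ℤ) ∣ (x : ℤ) - (r p + 1) := by
      have h4 : (x : ℤ) ≡ (((r p + 1) % p).toNat : ℕ) [ZMOD p] := by
        exact_mod_cast (Int.natCast_modEq_iff.mpr h1)
      rw [h2] at h4
      have h5 : (x : ℤ) ≡ r p + 1 [ZMOD p] := h4.trans (Int.mod_modEq _ _)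
      exact (Int.modEq_iff_dvd.mp h5.symm)
    have h4 : (p : ℤ) ∣ 1 := by
      have := dvd_sub hd h3
      have e : (x : ℤ) - r p - (x - (r p + 1)) = 1 := by ring
      rwa [e] at this
    have h5 : p ∣ 1 := by exact_mod_cast h4
    exact (hP p hp).one_lt.ne' (Nat.dvd_one.mp h5)
  have h1 := hall x
  rw [← hexp x] at h1
  rw [Finset.prod_eq_zero_iff] at h1
  obtain ⟨p, hp, h2⟩ := h1
  have h3 : ee p ((x : ℤ) - r p) = 1 := (sub_eq_zero.mp h2).symm
  exact hx p hp ((ee_eq_one (hP p hp).pos _).mp h3)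

lemma jac_kanold {N : ℕ} (hN : 2 ≤ N) : Jac N (2 ^ N.primeFactors.card - 1) := by
  intro g1 g2 h
  set P : Finset ℕ := N.primeFactors.filter fun p : ℕ => ¬ (p : ℤ) ∣ g1 with hP
  have hex : ∀ p : ℕ, ∃ r : ℤ, p ∈ P → (p : ℤ) ∣ g2 + r * g1 := by
    intro p
    by_cases hp : p ∈ P
    · rw [hP, mem_filter] at hp
      have hpp : Prime (p : ℤ) := Nat.prime_iff_prime_int.mp (Nat.prime_of_mem_primeFactors hp.1)
      obtain ⟨u, v, huv⟩ := (Prime.coprime_iff_not_dvd hpp).mpr hp.2
      refine ⟨-g2 * v, fun _ => ⟨g2 * u, ?_⟩⟩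
      linear_combination (-g2) * huv
    · exact ⟨0, fun h => absurd h hp⟩
  choose r hr using hex
  obtain ⟨k, hk, hav⟩ := exists_avoid P (fun p hp => by
    rw [hP, mem_filter] at hp
    exact Nat.prime_of_mem_primeFactors hp.1) r
  have hcard : 2 ^ P.card ≤ 2 ^ N.primeFactors.card :=
    Nat.pow_le_pow_right (by norm_num) (Finset.card_le_card (Finset.filter_subset _ _))
  refine ⟨k, by omega, ?_⟩
  rw [Int.isCoprime_iff_gcd_eq_one]
  by_contra hne
  obtain ⟨p, hp, hpd⟩ := Nat.exists_prime_and_dvd hne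
  have hp1 : (p : ℤ) ∣ g2 + k * g1 := (Int.natCast_dvd_natCast.mpr hpd).trans (Int.gcd_dvd_left ..)
  have hp2 : (p : ℤ) ∣ N := (Int.natCast_dvd_natCast.mpr hpd).trans (Int.gcd_dvd_right ..)
  have hpN : p ∣ N := by exact_mod_cast hp2
  have hpp : Prime (p : ℤ) := Nat.prime_iff_prime_int.mp hp
  have hmem : p ∈ N.primeFactors := Nat.mem_primeFactors.mpr ⟨hp, hpN, by omega⟩
  by_cases hg1 : (p : ℤ) ∣ g1
  · have h3 : (p : ℤ) ∣ g2 := (dvd_add_left (Dvd.dvd.mul_left hg1 _)).mp hp1
    exact hpp.not_isUnit (h.isUnit_of_dvd' hg1 h3)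
  · have hpP : p ∈ P := by rw [hP, mem_filter]; exact ⟨hmem, hg1⟩
    have h3 : (p : ℤ) ∣ (k - r p) * g1 := by
      have := dvd_sub hp1 (hr p hpP)
      have e : g2 + k * g1 - (g2 + r p * g1) = (k - r p) * g1 := by ring
      rwa [e] at this
    rcases hpp.dvd_or_dvd h3 with h4 | h4
    · exact hav p hpP h4
    · exact hg1 h4

end Pool.Agent.J4H56.NA
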