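import Mathlib
import Pool.Agent.J4H56.NA.Avg

/-!
# `N`-adic complexity of finite sequences: definitions and reduction to lattices
-/

set_option autoImplicit false

open Finset
open scoped Classical

namespace Pool.Agent.J4H56.NA

/-- the partial sum `Σ_{i<m} b_i N^i` -/
def part (N : ℕ) (b : ℕ → ℕ) (m : ℕ) : ℤ := ∑ i ∈ range m, (b i : ℤ) * (N : ℤ) ^ i

/-- The `N`-adic integer `Σ b_i N^i` of the sequence `b` is the rational number `f / g`, written in
lowest terms with `g > 0`: `g · Σ b_i N^i = f` holds in `ℤ_N = lim ℤ / N^m`. -/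
def IsFrac (N : ℕ) (b : ℕ → ℕ) (f g : ℤ) : Prop :=
  0 < g ∧ IsCoprime f g ∧ ∀ m : ℕ, (N : ℤ) ^ m ∣ g * part N b m - f

/-- the values `log_N max(|f|, |g|)` of the `N`-adic complexity at the eventually periodic
sequences over `{0, …, N - 1}` which extend the finite sequence `a` -/
def Vals (N n : ℕ) (a : Fin n → Fin N) : Set ℝ :=
  {x | ∃ b : ℕ → Fin N, (∀ i : Fin n, b i = a i) ∧ ∃ f g : ℤ,
    IsFrac N (fun i => (b i : ℕ)) f g ∧ x = Real.logb N (max |f| |g| : ℤ)}

/-- the `N`-adic complexity of a finite sequence -/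
noncomputable def cplx (N n : ℕ) (a : Fin n → Fin N) : ℝ := sInf (Vals N n a)

/-- the average over all finite sequences of length `n` -/
noncomputable def Efin (N n : ℕ) : ℝ := (∑ a : Fin n → Fin N, cplx N n a) / (N : ℝ) ^ n

/-- the number `Σ a_i N^i` -/
def num (N n : ℕ) (a : Fin n → Fin N) : ℕ := ∑ i : Fin n, (a i : ℕ) * N ^ (i : ℕ)

/-- norms of the reduced fractions congruent to `α` modulo `N ^ n` -/
def Nrm (N n : ℕ) (α : ℤ) : Set ℕ :=
  {t | ∃ f g : ℤ, 0 < g ∧ IsCoprime f g ∧ IsCoprime g N ∧ (N : ℤ) ^ n ∣ g * α - f ∧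
    (t : ℤ) = max |f| |g|}

lemma part_eq_num {N n : ℕ} {a : Fin n → Fin N} {b : ℕ → Fin N} (h : ∀ i : Fin n, b i = a i) :
    part N (fun i => (b i : ℕ)) n = num N n a := by
  unfold part num
  rw [Finset.sum_range]
  push_cast
  refine Finset.sum_congr rfl fun i _ => ?_
  rw [h i]

lemma part_dvd (N : ℕ) (b : ℕ → ℕ) {m k : ℕ} (h : m ≤ k) :
    (N : ℤ) ^ m ∣ part N b k - part N b m := by
  induction k, h using Nat.le_induction with
  | base => simp
  | succ k hk ih =>
    have : part N b (k + 1) = part N b k + (b k : ℤ) * (N : ℤ) ^ k := by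
      unfold part; rw [Finset.sum_range_succ]
    rw [this]
    have h2 : (N : ℤ) ^ m ∣ (b k : ℤ) * (N : ℤ) ^ k := Dvd.dvd.mul_left (pow_dvd_pow _ hk) _
    have e : part N b k + (b k : ℤ) * (N : ℤ) ^ k - part N b m =
        (part N b k - part N b m) + (b k : ℤ) * (N : ℤ) ^ k := by ring
    rw [e]
    exact dvd_add ih h2

/-- the state of the division with carry -/
def st (N : ℕ) (u g r : ℤ) : ℕ → ℤ
  | 0 => r
  | k + 1 => (st N u g r k - g * ((u * st N u g r k) % N)) / N

/-- extension of a finite sequence with prescribed rational value -/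
lemma exists_ext {N n : ℕ} (hN : 2 ≤ N) (a : Fin n → Fin N) {f g : ℤ}
    (hcg : IsCoprime g (N : ℤ)) (hd : (N : ℤ) ^ n ∣ g * num N n a - f) :
    ∃ b : ℕ → Fin N, (∀ i : Fin n, b i = a i) ∧
      ∀ m : ℕ, (N : ℤ) ^ m ∣ g * part N (fun i => (b i : ℕ)) m - f := by
  obtain ⟨u, v, huv⟩ := hcg
  obtain ⟨r0, hr0⟩ := hd
  have hN0 : (0 : ℤ) < N := by
    have : 0 < N := by omega
    exact_mod_cast this
  set s : ℕ → ℤ := st N u g (-r0) with hs
  have hs0 : s 0 = -r0 := rfl
  have hstep : ∀ k, s k = g * ((u * s k) % N) + N * s (k + 1) := by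
    intro k
    have h1 : s (k + 1) = (s k - g * ((u * s k) % N)) / N := rfl
    have h2 : (N : ℤ) ∣ s k - g * ((u * s k) % N) := by
      rw [Int.emod_def]
      refine ⟨v * s k + g * (u * s k / N), ?_⟩
      linear_combination (-(s k)) * huv
    rw [h1, Int.mul_ediv_cancel' h2]
    ring
  have hdig : ∀ k, ((u * s k) % N).toNat < N := by
    intro k
    have h1 := Int.emod_lt_of_pos (u * s k) hN0
    have h2 := Int.emod_nonneg (u * s k) hN0.ne'
    omega
  have hdig' : ∀ k, ((((u * s k) % N).toNat : ℕ) : ℤ) = (u * s k) % N := fun k =>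
    Int.toNat_of_nonneg (Int.emod_nonneg _ hN0.ne')
  set b : ℕ → Fin N := fun i => if h : i < n then a ⟨i, h⟩ else ⟨_, hdig (i - n)⟩ with hb
  have hba : ∀ i : Fin n, b i = a i := by
    intro i
    simp only [hb]
    rw [dif_pos i.2]
  have hbn : ∀ k, (b (n + k) : ℕ) = ((u * s k) % N).toNat := by
    intro k
    simp only [hb]
    rw [dif_neg (by omega)]
    simp
  have hinv : ∀ k, f = g * part N (fun i => (b i : ℕ)) (n + k) + (N : ℤ) ^ (n + k) * s k := by
    intro k
    induction k with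
    | zero =>
      rw [Nat.add_zero, part_eq_num hba, hs0]
      linarith
    | succ k ih =>
      have h1 : part N (fun i => (b i : ℕ)) (n + (k + 1)) =
          part N (fun i => (b i : ℕ)) (n + k) + ((u * s k) % N) * (N : ℤ) ^ (n + k) := by
        unfold part
        rw [← Nat.add_assoc, Finset.sum_range_succ]
        simp only
        rw [hbn k, hdig' k]
      rw [h1]
      have h2 := hstep k
      have h3 : (N : ℤ) ^ (n + (k + 1)) = (N : ℤ) ^ (n + k) * N := by
        rw [← Nat.add_assoc, pow_succ]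
      rw [h3]
      linear_combination ih + (N : ℤ) ^ (n + k) * h2
  refine ⟨b, hba, fun m => ?_⟩
  rcases le_or_gt n m with h | h
  · obtain ⟨k, rfl⟩ := Nat.exists_eq_add_of_le h
    refine ⟨-s k, ?_⟩
    have := hinv k
    linarith
  · have h1 := part_dvd N (fun i => (b i : ℕ)) h.le
    have h2 : (N : ℤ) ^ m ∣ g * part N (fun i => (b i : ℕ)) n - f := by
      have h3 := hinv 0
      rw [Nat.add_zero] at h3
      have h4 : g * part N (fun i => (b i : ℕ)) n - f = -((N : ℤ) ^ n * s 0) := by linarith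
      rw [h4]
      exact (dvd_neg).mpr (Dvd.dvd.mul_right (pow_dvd_pow _ h.le) _)
    have e : g * part N (fun i => (b i : ℕ)) m - f =
        (g * part N (fun i => (b i : ℕ)) n - f) -
        g * (part N (fun i => (b i : ℕ)) n - part N (fun i => (b i : ℕ)) m) := by ring
    rw [e]
    exact dvd_sub h2 (Dvd.dvd.mul_left h1 _)

lemma vals_eq {N n : ℕ} (hN : 2 ≤ N) (a : Fin n → Fin N) :
    Vals N n a = (fun t : ℕ => Real.logb N t) '' Nrm N n (num N n a) := by
  ext x
  constructor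
  · rintro ⟨b, hb, f, g, ⟨h1, h2, h3⟩, rfl⟩
    have hcop : IsCoprime g (N : ℤ) := by
      rw [Int.isCoprime_iff_gcd_eq_one]
      by_contra hne
      obtain ⟨p, hp, hpd⟩ := Nat.exists_prime_and_dvd hne
      have hp1 : (p : ℤ) ∣ g := (Int.natCast_dvd_natCast.mpr hpd).trans (Int.gcd_dvd_left ..)
      have hp2 : (p : ℤ) ∣ N := (Int.natCast_dvd_natCast.mpr hpd).trans (Int.gcd_dvd_right ..)
      have h4 : (p : ℤ) ∣ g * part N (fun i => (b i : ℕ)) 1 - f := by
        have := h3 1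
        rw [pow_one] at this
        exact hp2.trans this
      have h5 : (p : ℤ) ∣ f := by
        have := dvd_sub (Dvd.dvd.mul_right hp1 (part N (fun i => (b i : ℕ)) 1)) h4
        simpa using this
      exact (Nat.prime_iff_prime_int.mp hp).not_isUnit (h2.isUnit_of_dvd' h5 hp1)
    have h4 := h3 n
    rw [part_eq_num hb] at h4
    refine ⟨(max |f| |g|).toNat, ⟨f, g, h1, h2, hcop, h4, ?_⟩, ?_⟩
    · exact Int.toNat_of_nonneg (le_max_of_le_left (abs_nonneg _))
    · have : (((max |f| |g|).toNat : ℕ) : ℤ) = max |f| |g| :=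
        Int.toNat_of_nonneg (le_max_of_le_left (abs_nonneg _))
      show Real.logb N (((max |f| |g|).toNat : ℕ) : ℝ) = Real.logb N ((max |f| |g| : ℤ) : ℝ)
      conv_rhs => rw [← this]
      rw [Int.cast_natCast]
  · rintro ⟨t, ⟨f, g, h1, h2, h3, h4, h5⟩, rfl⟩
    obtain ⟨b, hb, hm⟩ := exists_ext hN a h3 h4
    refine ⟨b, hb, f, g, ⟨h1, h2, hm⟩, ?_⟩
    simp only
    rw [← h5]
    simp

/-- the least norm -/
noncomputable def mn (N n : ℕ) (α : ℤ) : ℕ := sInf (Nrm N n α)

lemma nrm_nonempty {N : ℕ} (hN : 2 ≤ N) (n : ℕ) (α : ℤ) : (Nrm N n α).Nonempty := by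
  obtain ⟨f, g, h1, h2, h3, h4, -, -⟩ := exists_good (n := n) hN (jac_self hN) α
  exact ⟨(max |f| |g|).toNat, f, g, h1, h2, h3, h4,
    Int.toNat_of_nonneg (le_max_of_le_left (abs_nonneg _))⟩

lemma rho_le_mn {N : ℕ} (hN : 2 ≤ N) (n : ℕ) (α : ℤ) : rho (N ^ n) α ≤ mn N n α := by
  obtain ⟨f, g, h1, h2, h3, h4, h5⟩ := Nat.sInf_mem (nrm_nonempty hN n α)
  apply rho_le
  refine ⟨f, g, Or.inr h1.ne', ?_, ?_, ?_⟩
  · unfold mn; rw [h5]; exact le_max_left _ _
  · unfold mn; rw [h5]; exact le_max_right _ _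
  · push_cast; exact h4

lemma mn_le {N n K : ℕ} (hN : 2 ≤ N) (hK : Jac N K) (α : ℤ) :
    rho (N ^ n) α * mn N n α ≤ (K + 2) * N ^ n := by
  obtain ⟨f, g, h1, h2, h3, h4, h5, h6⟩ := exists_good (n := n) hN hK α
  have h7 : (((max |f| |g|).toNat : ℕ) : ℤ) = max |f| |g| :=
    Int.toNat_of_nonneg (le_max_of_le_left (abs_nonneg _))
  have h8 : mn N n α ≤ (max |f| |g|).toNat := Nat.sInf_le ⟨f, g, h1, h2, h3, h4, h7⟩
  have h9 : (rho (N ^ n) α : ℤ) * (((max |f| |g|).toNat : ℕ) : ℤ) ≤ (K + 2) * N ^ n := by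
    rw [h7]
    rcases max_choice |f| |g| with h | h <;> rw [h] <;> assumption
  have h10 : rho (N ^ n) α * (max |f| |g|).toNat ≤ (K + 2) * N ^ n := by exact_mod_cast h9
  exact (Nat.mul_le_mul_left _ h8).trans h10

lemma mn_pos {N : ℕ} (hN : 2 ≤ N) (n : ℕ) (α : ℤ) : 0 < mn N n α :=
  lt_of_lt_of_le (rho_pos (by positivity) α) (rho_le_mn hN n α)

lemma isLeast_cplx {N n : ℕ} (hN : 2 ≤ N) (a : Fin n → Fin N) :
    IsLeast (Vals N n a) (Real.logb N (mn N n (num N n a))) := by
  rw [vals_eq hN a]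
  constructor
  · exact ⟨_, Nat.sInf_mem (nrm_nonempty hN n _), rfl⟩
  · rintro x ⟨t, ht, rfl⟩
    have h1 : mn N n (num N n a) ≤ t := Nat.sInf_le ht
    have h2 := mn_pos hN n (num N n a)
    have hN1 : (1 : ℝ) < N := by
      have : 1 < N := by omega
      exact_mod_cast this
    simp only
    apply Real.logb_le_logb_of_le hN1
    · exact_mod_cast h2
    · exact_mod_cast h1

lemma cplx_eq {N n : ℕ} (hN : 2 ≤ N) (a : Fin n → Fin N) :
    cplx N n a = Real.logb N (mn N n (num N n a)) := (isLeast_cplx hN a).csInf_eq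

lemma sum_cplx {N n : ℕ} (hN : 2 ≤ N) :
    ∑ a : Fin n → Fin N, cplx N n a = ∑ α ∈ range (N ^ n), Real.logb N (mn N n (α : ℤ)) := by
  rw [Finset.sum_range (fun α : ℕ => Real.logb N (mn N n (α : ℤ)))]
  refine Fintype.sum_equiv finFunctionFinEquiv _ _ fun a => ?_
  rw [cplx_eq hN, finFunctionFinEquiv_apply]
  rfl

/-- the bounds for the average -/
theorem main_bounds {N K : ℕ} (hN : 2 ≤ N) (hK : Jac N K) (n : ℕ) :
    (n : ℝ) / 2 - Real.logb N 5 ≤ Efin N n ∧
      Efin N n ≤ n / 2 + Real.logb N (5 * (K + 2)) := by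
  have hN1 : (1 : ℝ) < N := by
    have : 1 < N := by omega
    exact_mod_cast this
  have hlN : 0 < Real.log N := Real.log_pos hN1
  have hM : 0 < N ^ n := by positivity
  have hMr : (0 : ℝ) < (N : ℝ) ^ n := by positivity
  have hlog := sum_log_rho hM
  have hcast : ((N ^ n : ℕ) : ℝ) = (N : ℝ) ^ n := by push_cast; rfl
  rw [hcast, Real.log_pow] at hlog
  unfold Efin
  rw [sum_cplx hN]
  have hlogb : ∀ x : ℝ, Real.logb N x = Real.log x / Real.log N := fun x => rfl
  have hsum : ∑ α ∈ range (N ^ n), Real.logb N (mn N n (α : ℤ)) =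
      (∑ α ∈ range (N ^ n), Real.log (mn N n (α : ℤ))) / Real.log N := by
    rw [Finset.sum_div]; rfl
  rw [hsum]
  constructor
  · rw [hlogb, le_div_iff₀ hMr, le_div_iff₀ hlN]
    have h1 : ∑ α ∈ range (N ^ n), Real.log (rho (N ^ n) (α : ℤ)) ≤
        ∑ α ∈ range (N ^ n), Real.log (mn N n (α : ℤ)) := by
      refine Finset.sum_le_sum fun α _ => ?_
      apply Real.log_le_log
      · exact_mod_cast rho_pos hM _
      · exact_mod_cast rho_le_mn hN n _
    refine le_trans (le_of_eq ?_) (hlog.trans h1)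
    field_simp
  · have hK0 : (0 : ℝ) < (K : ℝ) + 2 := by positivity
    rw [hlogb, div_le_iff₀ hMr, div_le_iff₀ hlN]
    have h1 : ∑ α ∈ range (N ^ n), Real.log (mn N n (α : ℤ)) ≤
        ∑ α ∈ range (N ^ n), (Real.log ((K + 2) * (N : ℝ) ^ n) - Real.log (rho (N ^ n) (α : ℤ))) := by
      refine Finset.sum_le_sum fun α _ => ?_
      have hr : (0 : ℝ) < rho (N ^ n) (α : ℤ) := by exact_mod_cast rho_pos hM _
      have hm : (0 : ℝ) < mn N n (α : ℤ) := by exact_mod_cast mn_pos hN n _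
      rw [le_sub_iff_add_le, ← Real.log_mul hm.ne' hr.ne']
      apply Real.log_le_log (by positivity)
      have := mn_le (n := n) hN hK (α : ℤ)
      rw [mul_comm] at this
      exact_mod_cast this
    refine h1.trans ?_
    rw [Finset.sum_sub_distrib, Finset.sum_const, card_range, nsmul_eq_mul, hcast]
    have e1 : Real.log ((K + 2) * (N : ℝ) ^ n) = Real.log (K + 2) + n * Real.log N := by
      rw [Real.log_mul hK0.ne' hMr.ne', Real.log_pow]
    have e2 : Real.log (5 * ((K : ℝ) + 2)) = Real.log 5 + Real.log (K + 2) :=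
      Real.log_mul (by norm_num) hK0.ne'
    rw [e1, e2]
    have e3 : ((n : ℝ) / 2 + (Real.log 5 + Real.log (K + 2)) / Real.log N) * (N : ℝ) ^ n *
        Real.log N = (N : ℝ) ^ n * (n * Real.log N / 2 + Real.log 5 + Real.log (K + 2)) := by
      field_simp
      ring
    rw [e3]
    nlinarith

end Pool.Agent.J4H56.NA
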