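import Mathlib
import Pool.Agent.J4H56.NA.Seq

/-!
# The lower bound
-/

set_option autoImplicit false

open Finset
open scoped Classical

namespace Pool.Agent.J4H56.NA

/-- the admissible denominators `2 ≤ g ≤ T` -/
def dens (N T : ℕ) : Finset ℕ := (Finset.Icc 2 T).filter fun g => Nat.Coprime g N

lemma card_dens (N T : ℕ) (hT : 1 ≤ T) : (dens N T).card ≤ T - 1 := by
  unfold dens
  refine (Finset.card_filter_le _ _).trans ?_
  rw [Nat.card_Icc]; omega

lemma card_dens_even {N T : ℕ} (hN : 2 ∣ N) (hT : 1 ≤ T) : 2 * (dens N T).card ≤ T - 1 := by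
  have h1 : dens N T ⊆ (Finset.Icc 1 ((T - 1) / 2)).image fun k => 2 * k + 1 := by
    intro g hg
    simp only [dens, mem_filter, Finset.mem_Icc] at hg
    obtain ⟨⟨h2, h3⟩, h4⟩ := hg
    have hodd : ¬ 2 ∣ g := by
      intro h
      have := Nat.dvd_gcd h hN
      rw [h4] at this
      omega
    rw [mem_image]
    refine ⟨g / 2, ?_, by omega⟩
    rw [Finset.mem_Icc]
    omega
  have h2 := (Finset.card_le_card h1).trans Finset.card_image_le
  rw [Nat.card_Icc] at h2
  omega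

lemma card_mn {N n T : ℕ} (hN : 2 ≤ N) (hT : 1 ≤ T) :
    ((range (N ^ n)).filter fun α : ℕ => mn N n (α : ℤ) ≤ T).card ≤
      2 * T + 1 + (dens N T).card * (2 * T - 2) := by
  -- the set of reduced fractions
  set B : Finset (ℤ × ℤ) := (Finset.Icc (-(T : ℤ)) T ×ˢ {(1 : ℤ)}) ∪
    (dens N T).biUnion fun g => ((Finset.Icc (-(T : ℤ)) T \ {0, (g : ℤ), -(g : ℤ)}) ×ˢ {(g : ℤ)})
    with hB
  have hBcard : B.card ≤ 2 * T + 1 + (dens N T).card * (2 * T - 2) := by
    rw [hB]
    refine (Finset.card_union_le _ _).trans ?_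
    have h1 : (Finset.Icc (-(T : ℤ)) T ×ˢ {(1 : ℤ)}).card = 2 * T + 1 := by
      rw [card_product, Int.card_Icc, card_singleton]; omega
    rw [h1]
    refine Nat.add_le_add_left ?_ _
    refine Finset.card_biUnion_le.trans ?_
    rw [← smul_eq_mul, ← Finset.sum_const]
    refine Finset.sum_le_sum fun g hg => ?_
    simp only [dens, mem_filter, Finset.mem_Icc] at hg
    rw [card_product, card_singleton, mul_one, Finset.card_sdiff_of_subset]
    · rw [Int.card_Icc]
      have h3 : ({0, (g : ℤ), -(g : ℤ)} : Finset ℤ).card = 3 := by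
        rw [Finset.card_eq_three]
        exact ⟨0, g, -g, by omega, by omega, by omega, rfl⟩
      rw [h3]; omega
    · intro x hx
      simp only [mem_insert, mem_singleton] at hx
      rw [Finset.mem_Icc]
      omega
  refine le_trans ?_ hBcard
  have hex : ∀ α : ℕ, ∃ p : ℤ × ℤ, α ∈ ((range (N ^ n)).filter fun α : ℕ => mn N n (α : ℤ) ≤ T) →
      p ∈ B ∧ IsCoprime p.2 (N : ℤ) ∧ (N : ℤ) ^ n ∣ p.2 * α - p.1 := by
    intro α
    by_cases hα : α ∈ ((range (N ^ n)).filter fun α : ℕ => mn N n (α : ℤ) ≤ T)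
    · rw [mem_filter] at hα
      obtain ⟨f, g, h1, h2, h3, h4, h5⟩ := Nat.sInf_mem (nrm_nonempty hN n (α : ℤ))
      have h6 : max |f| |g| ≤ T := by
        rw [← h5]
        exact_mod_cast hα.2
      have hf : |f| ≤ T := (le_max_left _ _).trans h6
      have hg : |g| ≤ T := (le_max_right _ _).trans h6
      rw [abs_le] at hf hg
      refine ⟨(f, g), fun _ => ⟨?_, h3, h4⟩⟩
      rw [hB, mem_union]
      rcases eq_or_ne g 1 with rfl | hg1
      · left
        rw [mem_product]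
        exact ⟨Finset.mem_Icc.mpr hf, by simp⟩
      · right
        rw [mem_biUnion]
        refine ⟨g.toNat, ?_, ?_⟩
        · simp only [dens, mem_filter, Finset.mem_Icc]
          refine ⟨by omega, ?_⟩
          rw [← Nat.isCoprime_iff_coprime]
          have : ((g.toNat : ℕ) : ℤ) = g := Int.toNat_of_nonneg h1.le
          rw [this]; exact h3
        · have e : ((g.toNat : ℕ) : ℤ) = g := Int.toNat_of_nonneg h1.le
          rw [mem_product, e]
          refine ⟨?_, by simp⟩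
          simp only [mem_sdiff, Finset.mem_Icc, mem_insert, mem_singleton, not_or]
          refine ⟨hf, ?_, ?_, ?_⟩
          · rintro rfl
            have := isCoprime_zero_left.mp h2
            rw [Int.isUnit_iff] at this
            omega
          · rintro rfl
            have := isCoprime_self.mp h2
            rw [Int.isUnit_iff] at this
            omega
          · rintro rfl
            have := isCoprime_self.mp (IsCoprime.neg_left_iff _ _ |>.mp h2)
            rw [Int.isUnit_iff] at this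
            omega
    · exact ⟨(0, 0), fun h => absurd h hα⟩
  choose F hF using hex
  refine Finset.card_le_card_of_injOn F (fun α hα => (hF α hα).1) ?_
  intro α hα β hβ hαβ
  obtain ⟨-, h1, h2⟩ := hF α hα
  obtain ⟨-, -, h4⟩ := hF β hβ
  rw [← hαβ] at h4
  have h5 : (N : ℤ) ^ n ∣ (F α).2 * ((α : ℤ) - β) := by
    have := dvd_sub h2 h4
    have e : (F α).2 * (α : ℤ) - (F α).1 - ((F α).2 * β - (F α).1) =
      (F α).2 * ((α : ℤ) - β) := by ring
    rwa [e] at this
  have h6 : (N : ℤ) ^ n ∣ (α : ℤ) - β := (h1.symm.pow_left (m := n)).dvd_of_dvd_mul_left h5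
  have ha : α < N ^ n := by
    have := (mem_filter.mp (Finset.mem_coe.mp hα)).1
    exact mem_range.mp this
  have hb : β < N ^ n := by
    have := (mem_filter.mp (Finset.mem_coe.mp hβ)).1
    exact mem_range.mp this
  have h7 : (β : ℤ) ≡ α [ZMOD ((N ^ n : ℕ) : ℤ)] := by
    rw [Int.modEq_iff_dvd]; push_cast; exact h6
  have h8 : β ≡ α [MOD N ^ n] := Int.natCast_modEq_iff.mp h7
  exact (Nat.ModEq.eq_of_lt_of_lt h8 hb ha).symm

/-- general form of the bound for `Σ 1 / m` -/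
lemma sum_inv_le {ι : Type} (s : Finset ι) (m : ι → ℕ) (hm : ∀ i ∈ s, 1 ≤ m i) (S : ℕ)
    (w : ℕ → ℝ) (hw : ∀ T ∈ Finset.Icc 1 S, ((s.filter fun i => m i ≤ T).card : ℝ) ≤
      w T * (T * (T + 1))) :
    ∑ i ∈ s, (1 : ℝ) / m i ≤ s.card / (S + 1 : ℝ) + ∑ T ∈ Finset.Icc 1 S, w T := by
  calc ∑ i ∈ s, (1 : ℝ) / m i
      ≤ ∑ i ∈ s, (1 / (S + 1 : ℝ) + ∑ T ∈ Finset.Icc 1 S,
        (if m i ≤ T then (1 : ℝ) / (T * (T + 1)) else 0)) :=
        Finset.sum_le_sum fun i hi => inv_le_layers _ _ (hm i hi)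
    _ = s.card / (S + 1 : ℝ) + ∑ T ∈ Finset.Icc 1 S, ∑ i ∈ s,
        (if m i ≤ T then (1 : ℝ) / (T * (T + 1)) else 0) := by
        rw [Finset.sum_add_distrib, Finset.sum_comm]
        congr 1
        rw [Finset.sum_const, nsmul_eq_mul]
        ring
    _ ≤ s.card / (S + 1 : ℝ) + ∑ T ∈ Finset.Icc 1 S, w T := by
        gcongr with T hT
        rw [← Finset.sum_filter, Finset.sum_const, nsmul_eq_mul]
        have h3 := hw T hT
        rw [Finset.mem_Icc] at hT
        have hT1 : (1 : ℝ) ≤ T := by exact_mod_cast hT.1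
        rw [mul_one_div, div_le_iff₀ (by positivity)]
        exact h3

/-- `Σ 1 / mn ≤ 2 √(2 M)` -/
lemma sum_inv_mn {N n : ℕ} (hN : 2 ≤ N) :
    ∑ α ∈ range (N ^ n), (1 : ℝ) / mn N n (α : ℤ) ≤ 2 * √(2 * (N : ℝ) ^ n) := by
  set S := Nat.sqrt (N ^ n / 2) with hS
  have h1 : 2 * S ^ 2 ≤ N ^ n := by
    have := Nat.sqrt_le' (N ^ n / 2)
    have h2 : 2 * (N ^ n / 2) ≤ N ^ n := Nat.mul_div_le _ _
    rw [← hS] at this
    omega
  have h2 : N ^ n < 2 * (S + 1) ^ 2 := by
    have := Nat.lt_succ_sqrt' (N ^ n / 2)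
    rw [← hS, Nat.succ_eq_add_one] at this
    omega
  have h3 := sum_inv_le (range (N ^ n)) (fun α => mn N n (α : ℤ)) (fun α _ => mn_pos hN n _) S
    (fun _ => 2) (by
      intro T hT
      rw [Finset.mem_Icc] at hT
      have h4 := card_mn (n := n) hN hT.1
      have h5 := Nat.mul_le_mul_right (2 * T - 2) (card_dens N T hT.1)
      have h6 : ((range (N ^ n)).filter fun α : ℕ => mn N n (α : ℤ) ≤ T).card ≤
          2 * (T * (T + 1)) := by
        refine h4.trans ?_
        obtain ⟨t, rfl⟩ : ∃ t, T = t + 1 := ⟨T - 1, by omega⟩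
        have e1 : 2 * (t + 1) - 2 = 2 * t := by omega
        have e2 : t + 1 - 1 = t := by omega
        rw [e1, e2] at h5
        rw [e1]
        nlinarith
      exact_mod_cast h6)
  rw [card_range] at h3
  refine h3.trans ?_
  rw [Finset.sum_const, Nat.card_Icc, nsmul_eq_mul]
  have hM0 : (0 : ℝ) < (N : ℝ) ^ n := by positivity
  have hsq : √(2 * (N : ℝ) ^ n) ^ 2 = 2 * (N : ℝ) ^ n := Real.sq_sqrt (by positivity)
  have hs0 : 0 < √(2 * (N : ℝ) ^ n) := Real.sqrt_pos.mpr (by positivity)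
  set q := √(2 * (N : ℝ) ^ n) with hq
  have h1' : 2 * (S : ℝ) ^ 2 ≤ (N : ℝ) ^ n := by exact_mod_cast h1
  have h2' : (N : ℝ) ^ n < 2 * ((S : ℝ) + 1) ^ 2 := by exact_mod_cast h2
  have hS0 : (0 : ℝ) ≤ S := by positivity
  have e1 : ((S + 1 - 1 : ℕ) : ℝ) = S := by simp
  have e2 : ((N ^ n : ℕ) : ℝ) = (N : ℝ) ^ n := by push_cast; rfl
  rw [e1, e2]
  -- with `x = S + 1`, `M = q^2/2`: `M / x + 2 (x - 1) ≤ 2 q`
  have h4 : 2 * (S : ℝ) ≤ q := by nlinarith
  have h5 : q < 2 * ((S : ℝ) + 1) := by nlinarith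
  have hx : (0 : ℝ) < S + 1 := by positivity
  rw [← sub_nonneg]
  have e3 : 2 * q - ((N : ℝ) ^ n / (S + 1) + (S : ℝ) * 2) =
      (2 * q * (S + 1) - (N : ℝ) ^ n - (S : ℝ) * 2 * (S + 1)) / (S + 1) := by
    field_simp
    ring
  rw [e3]
  apply div_nonneg _ hx.le
  nlinarith

/-- for even `N`: `Σ 1 / mn ≤ 2 √M` -/
lemma sum_inv_mn_even {N n : ℕ} (hN : 2 ≤ N) (hN2 : 2 ∣ N) :
    ∑ α ∈ range (N ^ n), (1 : ℝ) / mn N n (α : ℤ) ≤ 2 * √((N : ℝ) ^ n) := by
  set S := Nat.sqrt (N ^ n) with hS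
  have h1 : S ^ 2 ≤ N ^ n := Nat.sqrt_le' _
  have h2 : N ^ n < (S + 1) ^ 2 := Nat.lt_succ_sqrt' _
  have h3 := sum_inv_le (range (N ^ n)) (fun α => mn N n (α : ℤ)) (fun α _ => mn_pos hN n _) S
    (fun T => if T = 1 then 3 / 2 else 1) (by
      intro T hT
      rw [Finset.mem_Icc] at hT
      have h4 := card_mn (n := n) hN hT.1
      have h5 := Nat.mul_le_mul_right (T - 1) (card_dens_even hN2 hT.1)
      have h6 : ((range (N ^ n)).filter fun α : ℕ => mn N n (α : ℤ) ≤ T).card ≤ T ^ 2 + 2 := by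
        refine h4.trans ?_
        obtain ⟨t, rfl⟩ : ∃ t, T = t + 1 := ⟨T - 1, by omega⟩
        have e1 : 2 * (t + 1) - 2 = 2 * t := by omega
        have e2 : t + 1 - 1 = t := by omega
        rw [e2] at h5
        rw [e1]
        nlinarith
      have h7 : (((range (N ^ n)).filter fun α : ℕ => mn N n (α : ℤ) ≤ T).card : ℝ) ≤
          (T : ℝ) ^ 2 + 2 := by exact_mod_cast h6
      refine h7.trans ?_
      by_cases hT1 : T = 1
      · rw [if_pos hT1, hT1]; norm_num
      · rw [if_neg hT1]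
        have : (2 : ℝ) ≤ T := by
          have : 2 ≤ T := by omega
          exact_mod_cast this
        nlinarith)
  rw [card_range] at h3
  refine h3.trans ?_
  have hS1 : 1 ≤ S := by
    rw [hS]
    exact Nat.sqrt_pos.mpr (by positivity)
  have hsum : ∑ T ∈ Finset.Icc 1 S, (if T = 1 then (3 : ℝ) / 2 else 1) = S + 1 / 2 := by
    have : ∀ T ∈ Finset.Icc 1 S, (if T = 1 then (3 : ℝ) / 2 else 1) =
        1 + (if T = 1 then (1 : ℝ) / 2 else 0) := by
      intro T _
      split_ifs <;> norm_num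
    rw [Finset.sum_congr rfl this, Finset.sum_add_distrib, Finset.sum_const, Nat.card_Icc,
      Finset.sum_ite_eq' (Finset.Icc 1 S) 1]
    rw [if_pos (Finset.mem_Icc.mpr ⟨le_rfl, hS1⟩)]
    simp
  rw [hsum]
  have hM0 : (0 : ℝ) < (N : ℝ) ^ n := by positivity
  have hsq : √((N : ℝ) ^ n) ^ 2 = (N : ℝ) ^ n := Real.sq_sqrt (by positivity)
  have hs0 : 0 < √((N : ℝ) ^ n) := Real.sqrt_pos.mpr (by positivity)
  set q := √((N : ℝ) ^ n) with hq
  have h1' : (S : ℝ) ^ 2 ≤ (N : ℝ) ^ n := by exact_mod_cast h1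
  have h2' : (N : ℝ) ^ n < ((S : ℝ) + 1) ^ 2 := by exact_mod_cast h2
  have hS1' : (1 : ℝ) ≤ S := by exact_mod_cast hS1
  have e2 : ((N ^ n : ℕ) : ℝ) = (N : ℝ) ^ n := by push_cast; rfl
  rw [e2]
  have h4 : (S : ℝ) ≤ q := by nlinarith
  have h5 : q < (S : ℝ) + 1 := by nlinarith
  have hx : (0 : ℝ) < S + 1 := by positivity
  rw [← sub_nonneg]
  have e3 : 2 * q - ((N : ℝ) ^ n / (S + 1) + ((S : ℝ) + 1 / 2)) =
      (2 * q * (S + 1) - (N : ℝ) ^ n - ((S : ℝ) + 1 / 2) * (S + 1)) / (S + 1) := by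
    field_simp
    ring
  rw [e3]
  apply div_nonneg _ hx.le
  nlinarith

/-- concavity of the logarithm -/
lemma sum_log_of_inv {M : ℕ} (hM : 0 < M) (m : ℕ → ℕ) (hm : ∀ α, 0 < m α) {c : ℝ} (hc : 0 < c)
    (h : ∑ α ∈ range M, (1 : ℝ) / m α ≤ c * √(M : ℝ)) :
    (M : ℝ) * (Real.log M / 2 - Real.log c) ≤ ∑ α ∈ range M, Real.log (m α) := by
  have hM0 : (0 : ℝ) < M := by exact_mod_cast hM
  set q := √(M : ℝ) with hq
  have hs0 : 0 < q := Real.sqrt_pos.mpr hM0
  have hsq : q ^ 2 = M := Real.sq_sqrt hM0.le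
  have hlq : Real.log q = Real.log M / 2 := Real.log_sqrt hM0.le
  have hpt : ∀ α ∈ range M, Real.log q - Real.log (m α) ≤
      q / c * (1 / m α) - 1 + Real.log c := by
    intro α _
    have hr : (0 : ℝ) < m α := by exact_mod_cast hm α
    have h1 := Real.log_le_sub_one_of_pos (show 0 < q / c * (1 / m α) by positivity)
    have h2 : Real.log (q / c * (1 / m α)) =
        Real.log q - Real.log c - Real.log (m α) := by
      rw [Real.log_mul (by positivity) (by positivity), Real.log_div (by positivity) hc.ne',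
        one_div, Real.log_inv]
      ring
    linarith
  have hsum := Finset.sum_le_sum hpt
  rw [Finset.sum_sub_distrib, Finset.sum_add_distrib, Finset.sum_sub_distrib, ← Finset.mul_sum]
    at hsum
  simp only [Finset.sum_const, card_range, nsmul_eq_mul, mul_one] at hsum
  have h6 : q / c * ∑ α ∈ range M, (1 : ℝ) / m α ≤ q / c * (c * q) := by
    apply mul_le_mul_of_nonneg_left h (by positivity)
  have h7 : q / c * (c * q) = M := by
    rw [← hsq]; field_simp
  rw [hlq] at hsum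
  nlinarith

lemma lower_of_inv {N n : ℕ} (hN : 2 ≤ N) {c : ℝ} (hc : 0 < c)
    (h : ∑ α ∈ range (N ^ n), (1 : ℝ) / mn N n (α : ℤ) ≤ c * √((N : ℝ) ^ n)) :
    (n : ℝ) / 2 - Real.logb N c ≤ Efin N n := by
  have hN1 : (1 : ℝ) < N := by
    have : 1 < N := by omega
    exact_mod_cast this
  have hlN : 0 < Real.log N := Real.log_pos hN1
  have hM : 0 < N ^ n := by positivity
  have hMr : (0 : ℝ) < (N : ℝ) ^ n := by positivity
  have hcast : ((N ^ n : ℕ) : ℝ) = (N : ℝ) ^ n := by push_cast; rfl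
  have hlog := sum_log_of_inv hM (fun α => mn N n (α : ℤ)) (fun α => mn_pos hN n _) hc
    (by rw [hcast]; exact h)
  rw [hcast, Real.log_pow] at hlog
  unfold Efin
  rw [sum_cplx hN]
  have hlogb : ∀ x : ℝ, Real.logb N x = Real.log x / Real.log N := fun x => rfl
  have hsum : ∑ α ∈ range (N ^ n), Real.logb N (mn N n (α : ℤ)) =
      (∑ α ∈ range (N ^ n), Real.log (mn N n (α : ℤ))) / Real.log N := by
    rw [Finset.sum_div]; rfl
  rw [hsum, hlogb, le_div_iff₀ hMr, le_div_iff₀ hlN]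
  refine le_trans (le_of_eq ?_) hlog
  field_simp

theorem lower {N : ℕ} (hN : 2 ≤ N) (n : ℕ) :
    (n : ℝ) / 2 - Real.logb N (2 * √2) ≤ Efin N n := by
  apply lower_of_inv hN (by positivity)
  have h := sum_inv_mn (n := n) hN
  rw [Real.sqrt_mul (by norm_num)] at h
  rw [mul_assoc]
  exact h

theorem lower_even {N : ℕ} (hN : 2 ≤ N) (hN2 : 2 ∣ N) (n : ℕ) :
    (n : ℝ) / 2 - Real.logb N 2 ≤ Efin N n :=
  lower_of_inv hN (by norm_num) (sum_inv_mn_even hN hN2)

/-- for every `N`: `n / 2 - 1 ≤ E` -/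
theorem lower_one {N : ℕ} (hN : 2 ≤ N) (n : ℕ) : (n : ℝ) / 2 - 1 ≤ Efin N n := by
  have hN1 : (1 : ℝ) < N := by
    have : 1 < N := by omega
    exact_mod_cast this
  rcases Nat.lt_or_ge N 3 with h | h
  · have hN2 : N = 2 := by omega
    subst hN2
    have h1 := lower_even (N := 2) le_rfl ⟨1, rfl⟩ n
    have h2 : Real.logb ((2 : ℕ) : ℝ) 2 = 1 := by
      push_cast
      exact Real.logb_self_eq_one (by norm_num)
    rw [h2] at h1
    exact h1
  · have h1 := lower hN n
    have h2 : Real.logb N (2 * √2) ≤ 1 := by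
      rw [← Real.logb_self_eq_one hN1]
      apply Real.logb_le_logb_of_le hN1 (by positivity)
      have h3 : √2 ≤ 3 / 2 := by
        rw [Real.sqrt_le_left (by norm_num)]; norm_num
      have h4 : (3 : ℝ) ≤ N := by exact_mod_cast h
      linarith
    linarith

end Pool.Agent.J4H56.NA
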