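import Mathlib
import Pool.Agent.J4H56.NA.Low
import Pool.Agent.J4H56.NA.Kanold

/-!
# Tails and uniformity in `N`
-/

set_option autoImplicit false

open Finset
open scoped Classical

namespace Pool.Agent.J4H56.NA

lemma card_short' {M : ℕ} (T : ℕ) :
    ((range M).filter fun α : ℕ => rho M (α : ℤ) ≤ T).card ≤ 6 * T ^ 2 := by
  rcases Nat.eq_zero_or_pos M with rfl | hM
  · simp
  rcases lt_or_ge T M with h | h
  · exact card_short h
  · refine (Finset.card_filter_le _ _).trans ?_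
    rw [card_range]
    have h1 : 1 ≤ T := by omega
    nlinarith

/-- counting sequences = counting residues -/
lemma card_cplx {N n : ℕ} (hN : 2 ≤ N) (P : ℝ → Prop) :
    (univ.filter fun a : Fin n → Fin N => P (cplx N n a)).card =
      ((range (N ^ n)).filter fun α : ℕ => P (Real.logb N (mn N n (α : ℤ)))).card := by
  refine Finset.card_bij (fun a _ => num N n a) ?_ ?_ ?_
  · intro a ha
    simp only [mem_filter, mem_univ, true_and] at ha
    rw [mem_filter, mem_range]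
    refine ⟨?_, ?_⟩
    · have := (finFunctionFinEquiv a).2
      rw [finFunctionFinEquiv_apply] at this
      exact this
    · rw [cplx_eq hN] at ha; exact ha
  · intro a _ b _ hab
    apply finFunctionFinEquiv.injective
    apply Fin.ext
    rw [finFunctionFinEquiv_apply, finFunctionFinEquiv_apply]
    exact hab
  · intro α hα
    rw [mem_filter, mem_range] at hα
    have h1 : num N n (finFunctionFinEquiv.symm ⟨α, hα.1⟩) = α := by
      have h2 := finFunctionFinEquiv_apply (finFunctionFinEquiv.symm (⟨α, hα.1⟩ : Fin (N ^ n)))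
      rw [Equiv.apply_symm_apply] at h2
      exact h2.symm
    refine ⟨finFunctionFinEquiv.symm ⟨α, hα.1⟩, ?_, h1⟩
    simp only [mem_filter, mem_univ, true_and]
    rw [cplx_eq hN, h1]
    exact hα.2

/-- the lower tail -/
theorem tail_low {N : ℕ} (hN : 2 ≤ N) (n : ℕ) (s : ℝ) :
    ((univ.filter fun a : Fin n → Fin N => cplx N n a ≤ n / 2 - s).card : ℝ) ≤
      3 * (N : ℝ) ^ ((n : ℝ) - 2 * s) := by
  have hN0 : (0 : ℝ) < N := by
    have : 0 < N := by omega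
    exact_mod_cast this
  have hN1 : (1 : ℝ) < N := by
    have : 1 < N := by omega
    exact_mod_cast this
  rw [card_cplx hN (fun x => x ≤ n / 2 - s)]
  set X : ℝ := (N : ℝ) ^ ((n : ℝ) / 2 - s) with hX
  have hX0 : 0 < X := Real.rpow_pos_of_pos hN0 _
  have hX2 : X ^ 2 = (N : ℝ) ^ ((n : ℝ) - 2 * s) := by
    rw [hX, ← Real.rpow_natCast, ← Real.rpow_mul hN0.le]
    congr 1
    push_cast
    ring
  have hiff : ∀ α : ℕ, Real.logb N (mn N n (α : ℤ)) ≤ n / 2 - s → mn N n (α : ℤ) ≤ ⌊X⌋₊ := by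
    intro α h
    rw [Real.logb_le_iff_le_rpow hN1 (by exact_mod_cast mn_pos hN n _)] at h
    exact Nat.le_floor h
  have hsub : ((range (N ^ n)).filter fun α : ℕ => Real.logb N (mn N n (α : ℤ)) ≤ n / 2 - s) ⊆
      ((range (N ^ n)).filter fun α : ℕ => mn N n (α : ℤ) ≤ ⌊X⌋₊) := by
    intro α hα
    rw [mem_filter] at hα ⊢
    exact ⟨hα.1, hiff α hα.2⟩
  rcases Nat.eq_zero_or_pos ⌊X⌋₊ with h0 | h0
  · have : ((range (N ^ n)).filter fun α : ℕ => mn N n (α : ℤ) ≤ ⌊X⌋₊) = ∅ := by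
      rw [Finset.filter_eq_empty_iff]
      intro α _
      have := mn_pos hN n (α : ℤ)
      omega
    rw [this, Finset.subset_empty] at hsub
    rw [hsub, card_empty]
    push_cast
    positivity
  · have h1 := (Finset.card_le_card hsub).trans (card_mn (n := n) hN h0)
    have h2 := Nat.mul_le_mul_right (2 * ⌊X⌋₊ - 2) (card_dens N ⌊X⌋₊ h0)
    have h3 : ((range (N ^ n)).filter fun α : ℕ =>
        Real.logb N (mn N n (α : ℤ)) ≤ n / 2 - s).card ≤ 3 * ⌊X⌋₊ ^ 2 := by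
      refine h1.trans ?_
      obtain ⟨t, ht⟩ : ∃ t, ⌊X⌋₊ = t + 1 := ⟨⌊X⌋₊ - 1, by omega⟩
      rw [ht] at h2 ⊢
      have e1 : 2 * (t + 1) - 2 = 2 * t := by omega
      have e2 : t + 1 - 1 = t := by omega
      rw [e1, e2] at h2
      rw [e1]
      nlinarith
    have h4 : (⌊X⌋₊ : ℝ) ≤ X := Nat.floor_le hX0.le
    have h5 : (⌊X⌋₊ : ℝ) ^ 2 ≤ X ^ 2 := by
      have : (0 : ℝ) ≤ ⌊X⌋₊ := by positivity
      nlinarith
    rw [← hX2]
    calc (((range (N ^ n)).filter fun α : ℕ =>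
        Real.logb N (mn N n (α : ℤ)) ≤ n / 2 - s).card : ℝ) ≤ 3 * (⌊X⌋₊ : ℝ) ^ 2 := by
          exact_mod_cast h3
      _ ≤ 3 * X ^ 2 := by linarith

/-- the upper tail -/
theorem tail_up {N K : ℕ} (hN : 2 ≤ N) (hK : Jac N K) (n : ℕ) (s : ℝ) :
    ((univ.filter fun a : Fin n → Fin N => n / 2 + s ≤ cplx N n a).card : ℝ) ≤
      6 * ((K : ℝ) + 2) ^ 2 * (N : ℝ) ^ ((n : ℝ) - 2 * s) := by
  have hN0 : (0 : ℝ) < N := by
    have : 0 < N := by omega
    exact_mod_cast this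
  have hN1 : (1 : ℝ) < N := by
    have : 1 < N := by omega
    exact_mod_cast this
  have hM : 0 < N ^ n := by positivity
  rw [card_cplx hN (fun x => n / 2 + s ≤ x)]
  set Y : ℝ := ((K : ℝ) + 2) * (N : ℝ) ^ ((n : ℝ) / 2 - s) with hY
  have hY0 : 0 < Y := by positivity
  have hY2 : Y ^ 2 = ((K : ℝ) + 2) ^ 2 * (N : ℝ) ^ ((n : ℝ) - 2 * s) := by
    rw [hY, mul_pow]
    congr 1
    rw [← Real.rpow_natCast, ← Real.rpow_mul hN0.le]
    congr 1
    push_cast
    ring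
  have hsub : ((range (N ^ n)).filter fun α : ℕ => n / 2 + s ≤ Real.logb N (mn N n (α : ℤ))) ⊆
      ((range (N ^ n)).filter fun α : ℕ => rho (N ^ n) (α : ℤ) ≤ ⌊Y⌋₊) := by
    intro α hα
    rw [mem_filter] at hα ⊢
    refine ⟨hα.1, Nat.le_floor ?_⟩
    have hm0 : (0 : ℝ) < mn N n (α : ℤ) := by exact_mod_cast mn_pos hN n _
    have h1 : (N : ℝ) ^ ((n : ℝ) / 2 + s) ≤ mn N n (α : ℤ) :=
      (Real.le_logb_iff_rpow_le hN1 hm0).mp hα.2
    have h2 : (rho (N ^ n) (α : ℤ) : ℝ) * mn N n (α : ℤ) ≤ ((K : ℝ) + 2) * (N : ℝ) ^ n := by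
      exact_mod_cast mn_le (n := n) hN hK (α : ℤ)
    have h3 : (0 : ℝ) < (N : ℝ) ^ ((n : ℝ) / 2 + s) := Real.rpow_pos_of_pos hN0 _
    have h4 : (rho (N ^ n) (α : ℤ) : ℝ) * (N : ℝ) ^ ((n : ℝ) / 2 + s) ≤
        ((K : ℝ) + 2) * (N : ℝ) ^ n := by
      refine le_trans ?_ h2
      apply mul_le_mul_of_nonneg_left h1 (by positivity)
    have h5 : (N : ℝ) ^ ((n : ℝ) / 2 - s) * (N : ℝ) ^ ((n : ℝ) / 2 + s) = (N : ℝ) ^ n := by
      rw [← Real.rpow_add hN0, ← Real.rpow_natCast]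
      congr 1
      ring
    have h6 : (rho (N ^ n) (α : ℤ) : ℝ) * (N : ℝ) ^ ((n : ℝ) / 2 + s) ≤
        Y * (N : ℝ) ^ ((n : ℝ) / 2 + s) := by
      rw [hY, mul_assoc, h5]; exact h4
    exact le_of_mul_le_mul_right h6 h3
  have h1 := (Finset.card_le_card hsub).trans (card_short' ⌊Y⌋₊)
  have h4 : (⌊Y⌋₊ : ℝ) ≤ Y := Nat.floor_le hY0.le
  have h5 : (⌊Y⌋₊ : ℝ) ^ 2 ≤ Y ^ 2 := by
    have : (0 : ℝ) ≤ ⌊Y⌋₊ := by positivity
    nlinarith
  calc (((range (N ^ n)).filter fun α : ℕ =>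
      n / 2 + s ≤ Real.logb N (mn N n (α : ℤ))).card : ℝ) ≤ 6 * (⌊Y⌋₊ : ℝ) ^ 2 := by
        exact_mod_cast h1
    _ ≤ 6 * Y ^ 2 := by linarith
    _ = _ := by rw [hY2]; ring

/-- the number of prime factors is `o(log N)` -/
lemma omega_bound {N : ℕ} (hN : 2 ≤ N) (k : ℕ) :
    (k : ℝ) * (N.primeFactors.card - (2 : ℝ) ^ k) ≤ Real.logb 2 N := by
  set P := N.primeFactors with hP
  set Q := P.filter fun p => 2 ^ k ≤ p with hQ
  have h1 : P.card ≤ Q.card + 2 ^ k := by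
    have h2 : P.filter (fun p => ¬ 2 ^ k ≤ p) ⊆ range (2 ^ k) := by
      intro p hp
      rw [mem_filter] at hp
      rw [mem_range]; omega
    have h3 := Finset.card_le_card h2
    rw [card_range] at h3
    have h4 := Finset.card_filter_add_card_filter_not (s := P) (fun p => 2 ^ k ≤ p)
    rw [← hQ] at h4
    omega
  have h2 : (2 ^ k) ^ Q.card ≤ N := by
    calc (2 ^ k) ^ Q.card = ∏ _p ∈ Q, 2 ^ k := by rw [Finset.prod_const]
      _ ≤ ∏ p ∈ Q, p := by
          apply Finset.prod_le_prod'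
          intro p hp
          rw [hQ, mem_filter] at hp
          exact hp.2
      _ ≤ ∏ p ∈ P, p := by
          apply Finset.prod_le_prod_of_subset_of_one_le' (Finset.filter_subset _ _)
          intro p hp _
          exact (Nat.prime_of_mem_primeFactors hp).one_lt.le
      _ ≤ N := Nat.le_of_dvd (by omega) (Nat.prod_primeFactors_dvd N)
  have h3 : ((2 : ℝ) ^ k) ^ Q.card ≤ N := by exact_mod_cast h2
  have hN0 : (0 : ℝ) < N := by
    have : 0 < N := by omega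
    exact_mod_cast this
  have h4 : (k : ℝ) * Q.card ≤ Real.logb 2 N := by
    rw [Real.le_logb_iff_rpow_le (by norm_num) hN0]
    have : (2 : ℝ) ^ ((k : ℝ) * Q.card) = ((2 : ℝ) ^ k) ^ Q.card := by
      rw [← pow_mul, ← Real.rpow_natCast]
      congr 1
      push_cast
      ring
    rw [this]; exact h3
  have h5 : (P.card : ℝ) ≤ Q.card + (2 : ℝ) ^ k := by exact_mod_cast h1
  have hk : (0 : ℝ) ≤ k := by positivity
  nlinarith

end Pool.Agent.J4H56.NA
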